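import Pool.Agent.Helper72.QT.Ratio

/-!
# Project QQ (MP_1a304d_ag): rational surfaces in complete intersections of three quadrics

`G : Fin 3 → Mt k N` is a net of symmetric matrices, `bil (G c) x y` the bilinear forms over any
commutative `k`-algebra, the quadrics are `bil (G c) x x = 0`. `a`, `b` span a line `l` on them.
The surface (projection from `l`): `H` = the net after a change of basis, `bt H t = H 0 + t H 1`;
for a vector `u` with `bt H t a u = bt H t b u = bt H t u u = 0` the plane `<l, u>` lies on the
quadric `bt H t`, and meets the three quadrics in `l` and one point `yy H a b u`.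
-/

set_option autoImplicit false

namespace Pool.Agent.Helper11.QQ

open Polynomial Pool.Agent.Helper72.QT

/-- square matrices as functions of two variables -/
abbrev Mt (k : Type*) (N : ℕ) : Type _ := Fin N → Fin N → k

variable {k : Type*} [Field k] {N : ℕ}

/-- symmetric matrices -/
def Sym (G : Mt k N) : Prop := ∀ i j, G i j = G j i

/-- the bilinear form of a matrix, over every `k`-algebra -/
def bil (G : Mt k N) {R : Type*} [CommRing R] [Algebra k R] (x y : Fin N → R) : R :=
  ∑ i, ∑ j, algebraMap k R (G i j) * x i * y j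

/-- a vector with coordinates in `k` over the algebra `R` -/
def cst (R : Type*) [CommRing R] [Algebra k R] (a : Fin N → k) : Fin N → R :=
  fun i => algebraMap k R (a i)

/-- the line through `a` and `b` lies on the three quadrics -/
structure Line (G : Fin 3 → Mt k N) (a b : Fin N → k) : Prop where
  aa : ∀ c, bil (G c) a a = 0
  ab : ∀ c, bil (G c) a b = 0
  bb : ∀ c, bil (G c) b b = 0

/-- the intersection of the three quadrics is smooth of codimension three -/
def Smo3 (G : Fin 3 → Mt k N) : Prop :=
  ∀ x : Fin N → k, x ≠ 0 → (∀ c, bil (G c) x x = 0) → ∀ μ : Fin 3 → k,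
    (∀ v, ∑ c, μ c * bil (G c) x v = 0) → μ = 0

/-- the three forms `bil (G c) x _` are independent for all points `x` of the line -/
def JL (G : Fin 3 → Mt k N) (a b : Fin N → k) : Prop :=
  ∀ α β : k, (α ≠ 0 ∨ β ≠ 0) → ∀ μ : Fin 3 → k,
    (∀ v, ∑ c, μ c * bil (G c) (α • a + β • b) v = 0) → μ = 0

/-- the intersection of the three quadrics contains a rational surface -/
def ContRat3 (G : Fin 3 → Mt k N) : Prop :=
  ∃ y : Fin N → KK k, (∀ c, bil (G c) y y = 0) ∧ ∃ i, y i ≠ 0 ∧
    IntermediateField.adjoin k (Set.range fun j => y j / y i) = ⊤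

/-- the bilinear form of the member `H 0 + t H 1` of the pencil -/
def bt (H : Fin 3 → Mt k N) {R : Type*} [CommRing R] [Algebra k R] (t : R) (x y : Fin N → R) : R :=
  bil (H 0) x y + t * bil (H 1) x y

/-- the minor `Γ(u) = B_1(a,u) B_2(b,u) - B_1(b,u) B_2(a,u)` -/
def gam (H : Fin 3 → Mt k N) (a b : Fin N → k) {R : Type*} [CommRing R] [Algebra k R]
    (u : Fin N → R) : R :=
  bil (H 1) (cst R a) u * bil (H 2) (cst R b) u - bil (H 1) (cst R b) u * bil (H 2) (cst R a) u

section basic

variable {R S : Type*} [CommRing R] [Algebra k R] [CommRing S] [Algebra k S]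

theorem cst_self (a : Fin N → k) : cst k a = a := rfl

theorem cst_map (g : R →ₐ[k] S) (a : Fin N → k) : (fun i => g (cst R a i)) = cst S a := by
  funext i
  exact g.commutes _

theorem cst_add (a b : Fin N → k) : cst R (a + b) = cst R a + cst R b := by
  funext i
  simp [cst]

theorem cst_smul (c : k) (a : Fin N → k) : cst R (c • a) = algebraMap k R c • cst R a := by
  funext i
  simp [cst]

theorem bil_add_left (G : Mt k N) (x y z : Fin N → R) :
    bil G (x + y) z = bil G x z + bil G y z := by
  simp only [bil, Pi.add_apply, mul_add, add_mul, Finset.sum_add_distrib]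

theorem bil_add_right (G : Mt k N) (x y z : Fin N → R) :
    bil G x (y + z) = bil G x y + bil G x z := by
  simp only [bil, Pi.add_apply, mul_add, Finset.sum_add_distrib]

theorem bil_smul_left (G : Mt k N) (c : R) (x y : Fin N → R) :
    bil G (c • x) y = c * bil G x y := by
  simp only [bil, Pi.smul_apply, smul_eq_mul, Finset.mul_sum]
  refine Finset.sum_congr rfl fun i _ => Finset.sum_congr rfl fun j _ => ?_
  ring

theorem bil_smul_right (G : Mt k N) (c : R) (x y : Fin N → R) :
    bil G x (c • y) = c * bil G x y := by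
  simp only [bil, Pi.smul_apply, smul_eq_mul, Finset.mul_sum]
  refine Finset.sum_congr rfl fun i _ => Finset.sum_congr rfl fun j _ => ?_
  ring

theorem bil_zero_left (G : Mt k N) (x : Fin N → R) : bil G 0 x = 0 := by
  simp [bil]

theorem bil_zero_right (G : Mt k N) (x : Fin N → R) : bil G x 0 = 0 := by
  simp [bil]

theorem bil_neg_left (G : Mt k N) (x y : Fin N → R) : bil G (-x) y = -bil G x y := by
  have h := bil_smul_left G (-1 : R) x y
  rw [neg_one_smul, neg_one_mul] at h
  exact h

theorem bil_neg_right (G : Mt k N) (x y : Fin N → R) : bil G x (-y) = -bil G x y := by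
  have h := bil_smul_right G (-1 : R) x y
  rw [neg_one_smul, neg_one_mul] at h
  exact h

theorem bil_sub_left (G : Mt k N) (x y z : Fin N → R) :
    bil G (x - y) z = bil G x z - bil G y z := by
  rw [sub_eq_add_neg, bil_add_left, bil_neg_left, sub_eq_add_neg]

theorem bil_sub_right (G : Mt k N) (x y z : Fin N → R) :
    bil G x (y - z) = bil G x y - bil G x z := by
  rw [sub_eq_add_neg, bil_add_right, bil_neg_right, sub_eq_add_neg]

theorem bil_comm {G : Mt k N} (hG : Sym G) (x y : Fin N → R) : bil G x y = bil G y x := by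
  unfold bil
  rw [Finset.sum_comm]
  refine Finset.sum_congr rfl fun i _ => Finset.sum_congr rfl fun j _ => ?_
  rw [hG j i]
  ring

theorem bil_map (G : Mt k N) (g : R →ₐ[k] S) (x y : Fin N → R) :
    bil G (fun i => g (x i)) (fun i => g (y i)) = g (bil G x y) := by
  simp only [bil, map_sum, map_mul]
  refine Finset.sum_congr rfl fun i _ => Finset.sum_congr rfl fun j _ => ?_
  rw [g.commutes]

theorem bil_cst (G : Mt k N) (x y : Fin N → k) :
    bil G (cst R x) (cst R y) = algebraMap k R (bil G x y) := by
  simp only [bil, cst, map_sum, map_mul]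
  rfl

/-- the form `bil G x _` as a combination of coordinates -/
theorem bil_eq_sum (G : Mt k N) (x : Fin N → k) (u : Fin N → R) :
    bil G (cst R x) u = ∑ j, algebraMap k R (bil G x (Pi.single j 1)) * u j := by
  have h : ∀ j, bil G x (Pi.single j 1) = ∑ i, G i j * x i := by
    intro j
    unfold bil
    refine Finset.sum_congr rfl fun i _ => ?_
    rw [Finset.sum_eq_single j]
    · rw [Pi.single_eq_same, mul_one]
      rfl
    · intro l _ hl
      rw [Pi.single_eq_of_ne hl, mul_zero]
    · intro hj
      exact absurd (Finset.mem_univ j) hj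
  unfold bil cst
  rw [Finset.sum_comm]
  refine Finset.sum_congr rfl fun j _ => ?_
  have h' := h j
  unfold bil at h'
  rw [h', map_sum, Finset.sum_mul]
  refine Finset.sum_congr rfl fun i _ => ?_
  rw [map_mul]

theorem bt_add_left (H : Fin 3 → Mt k N) (t : R) (x y z : Fin N → R) :
    bt H t (x + y) z = bt H t x z + bt H t y z := by
  simp only [bt, bil_add_left]
  ring

theorem bt_add_right (H : Fin 3 → Mt k N) (t : R) (x y z : Fin N → R) :
    bt H t x (y + z) = bt H t x y + bt H t x z := by
  simp only [bt, bil_add_right]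
  ring

theorem bt_sub_left (H : Fin 3 → Mt k N) (t : R) (x y z : Fin N → R) :
    bt H t (x - y) z = bt H t x z - bt H t y z := by
  simp only [bt, bil_sub_left]
  ring

theorem bt_sub_right (H : Fin 3 → Mt k N) (t : R) (x y z : Fin N → R) :
    bt H t x (y - z) = bt H t x y - bt H t x z := by
  simp only [bt, bil_sub_right]
  ring

theorem bt_smul_left (H : Fin 3 → Mt k N) (t c : R) (x y : Fin N → R) :
    bt H t (c • x) y = c * bt H t x y := by
  simp only [bt, bil_smul_left]
  ring

theorem bt_smul_right (H : Fin 3 → Mt k N) (t c : R) (x y : Fin N → R) :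
    bt H t x (c • y) = c * bt H t x y := by
  simp only [bt, bil_smul_right]
  ring

theorem bt_comm {H : Fin 3 → Mt k N} (hH : ∀ c, Sym (H c)) (t : R) (x y : Fin N → R) :
    bt H t x y = bt H t y x := by
  simp only [bt]
  rw [bil_comm (hH 0), bil_comm (hH 1)]

theorem bt_map (H : Fin 3 → Mt k N) (g : R →ₐ[k] S) (t : R) (x y : Fin N → R) :
    bt H (g t) (fun i => g (x i)) (fun i => g (y i)) = g (bt H t x y) := by
  simp only [bt, bil_map, map_add, map_mul]

theorem gam_map (H : Fin 3 → Mt k N) (a b : Fin N → k) (g : R →ₐ[k] S) (u : Fin N → R) :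
    gam H a b (fun i => g (u i)) = g (gam H a b u) := by
  have h : ∀ (c : Fin 3) (a : Fin N → k),
      bil (H c) (cst S a) (fun i => g (u i)) = g (bil (H c) (cst R a) u) := by
    intro c a
    rw [← bil_map, cst_map]
  simp only [gam, h, map_sub, map_mul]

/-- on the line all forms vanish -/
theorem Line.ba {G : Fin 3 → Mt k N} {a b : Fin N → k} (hG : ∀ c, Sym (G c)) (hL : Line G a b)
    (c : Fin 3) : bil (G c) b a = 0 := by
  rw [bil_comm (hG c), hL.ab]

theorem Line.raa {G : Fin 3 → Mt k N} {a b : Fin N → k} (hL : Line G a b) (c : Fin 3) :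
    bil (G c) (cst R a) (cst R a) = 0 := by
  rw [bil_cst, hL.aa, map_zero]

theorem Line.rab {G : Fin 3 → Mt k N} {a b : Fin N → k} (hL : Line G a b) (c : Fin 3) :
    bil (G c) (cst R a) (cst R b) = 0 := by
  rw [bil_cst, hL.ab, map_zero]

theorem Line.rbb {G : Fin 3 → Mt k N} {a b : Fin N → k} (hL : Line G a b) (c : Fin 3) :
    bil (G c) (cst R b) (cst R b) = 0 := by
  rw [bil_cst, hL.bb, map_zero]

theorem Line.rba {G : Fin 3 → Mt k N} {a b : Fin N → k} (hG : ∀ c, Sym (G c)) (hL : Line G a b)
    (c : Fin 3) : bil (G c) (cst R b) (cst R a) = 0 := by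
  rw [bil_cst, hL.ba hG, map_zero]

end basic

/-- smoothness along the line -/
theorem JL_of_smo {G : Fin 3 → Mt k N} {a b : Fin N → k} (hG : ∀ c, Sym (G c)) (hL : Line G a b)
    (hab : LinearIndependent k ![a, b]) (hS : Smo3 G) : JL G a b := by
  intro α β hαβ μ hμ
  rw [LinearIndependent.pair_iff] at hab
  refine hS (α • a + β • b) ?_ ?_ μ hμ
  · intro h0
    obtain ⟨h1, h2⟩ := hab α β h0
    rcases hαβ with h | h
    · exact h h1
    · exact h h2
  · intro c
    rw [bil_add_left, bil_add_right, bil_add_right, bil_smul_left, bil_smul_left, bil_smul_left,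
      bil_smul_left, bil_smul_right, bil_smul_right, bil_smul_right, bil_smul_right, hL.aa, hL.ab,
      hL.bb, hL.ba hG]
    ring

end Pool.Agent.Helper11.QQ
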