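import Pool.Agent.Helper11.QQ.Defs

/-!
# QQ-5: the minor `Γ` does not vanish on the orthogonal space of the line

PROOF. Suppose `Γ(u) = B1(a,u) B2(b,u) - B1(b,u) B2(a,u) = 0` for all `u` in `U = {B0(a,u) = 0 = B0(b,u)}` (`Bc = bil (H c)`). For linear forms `f1 = B1(a,_), f2 = B1(b,_), f3 = B2(a,_), f4 = B2(b,_)` on `U` with `f1 f4 = f2 f3`
(everywhere on `U`, `k` infinite): there is `(α, β) ≠ 0` with (I) `α f1 + β f2 = 0 = α f3 + β f4` on `U` or (II) `α f1 + β f3 = 0 = α f2 + β f4` on `U`. [A product of two linear forms which is zero everywhere has a zero factor. If `f1 = 0`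
on `U` then `f2 f3 = 0`, so (II) or (I) with `(1, 0)`. If `f1 ≠ 0`: on `ker f1` (in `U`) `f2 f3 = 0`, so `f2` or `f3` vanishes on `ker f1`, i.e. `f2 = c f1` or `f3 = c f1` on `U`; then `f1 (f4 - c f3) = 0`, so `f4 = c f3` and (I) with `(c, -1)`,
respectively `f4 = c f2` and (II) with `(c, -1)`.] A linear form which vanishes on `U` is a combination of `B0(a,_)`, `B0(b,_)` (`mem_span_of_iInf_ker_le_ker`). Case (I): `x = α a + β b`; `B1(x,_)` and `B2(x,_)` vanish on `U`; so
`B0(x,_), B1(x,_), B2(x,_)` are three elements of the span of `B0(a,_)`, `B0(b,_)`, hence dependent: contradiction with `JL`. Case (II): `μ = (0, α, β)`: `Bμ(a,_) = α B1(a,_) + β B2(a,_)` and `Bμ(b,_)` vanish on `U`, so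
`Bμ(a,_) = p1 B0(a,_) + r1 B0(b,_)`, `Bμ(b,_) = p2 B0(a,_) + r2 B0(b,_)`; the matrix of `z = (x, y) ↦ (x p1 + y p2, x r1 + y r2)` has an eigenvector `z ≠ 0` with eigenvalue `t` (`k` algebraically closed), so `Bμ(xa + yb,_) = t B0(xa + yb,_)`:
contradiction with `JL` for `(-t, α, β) ≠ 0`.
-/

set_option autoImplicit false

namespace Pool.Agent.Helper11.QQ

variable {k : Type*} [Field k] {N : ℕ}

section aux

variable {W : Type*} [AddCommGroup W] [Module k W]

private theorem zero_of_mul (K : Submodule k W) (f g : W →ₗ[k] k)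
    (h : ∀ w ∈ K, f w * g w = 0) : (∀ w ∈ K, f w = 0) ∨ (∀ w ∈ K, g w = 0) := by
  by_contra hc
  push Not at hc
  obtain ⟨⟨x, hx, hfx⟩, ⟨y, hy, hgy⟩⟩ := hc
  have h1 : g x = 0 := by
    rcases mul_eq_zero.mp (h x hx) with h | h
    · exact absurd h hfx
    · exact h
  have h2 : f y = 0 := by
    rcases mul_eq_zero.mp (h y hy) with h | h
    · exact h
    · exact absurd h hgy
  have h3 := h (x + y) (K.add_mem hx hy)
  rw [map_add, map_add, h1, h2, add_zero, zero_add] at h3
  exact (mul_ne_zero hfx hgy) h3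

private theorem mul_of_ker {f g : W →ₗ[k] k} {x : W} (hx : f x ≠ 0)
    (h : ∀ w, f w = 0 → g w = 0) : ∀ w, g w = (g x / f x) * f w := by
  intro w
  have h1 := h (w - (f w / f x) • x) (by
    rw [map_sub, map_smul, smul_eq_mul, div_mul_cancel₀ _ hx, sub_self])
  rw [map_sub, map_smul, smul_eq_mul, sub_eq_zero] at h1
  rw [h1]
  ring

private theorem minors (f1 f2 f3 f4 : W →ₗ[k] k) (h : ∀ w, f1 w * f4 w = f2 w * f3 w) :
    ∃ α β : k, (α ≠ 0 ∨ β ≠ 0) ∧
      ((∀ w, α * f1 w + β * f2 w = 0 ∧ α * f3 w + β * f4 w = 0) ∨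
        (∀ w, α * f1 w + β * f3 w = 0 ∧ α * f2 w + β * f4 w = 0)) := by
  by_cases h1 : ∀ w, f1 w = 0
  · have h2 := zero_of_mul ⊤ f2 f3 (fun w _ => by rw [← h w, h1 w, zero_mul])
    refine ⟨1, 0, Or.inl one_ne_zero, ?_⟩
    rcases h2 with h2 | h2
    · right
      intro w
      rw [h1 w, h2 w trivial]
      simp
    · left
      intro w
      rw [h1 w, h2 w trivial]
      simp
  · push Not at h1
    obtain ⟨x, hx⟩ := h1
    have h2 := zero_of_mul (LinearMap.ker f1) f2 f3 (fun w hw => by
      rw [← h w, LinearMap.mem_ker.mp hw, zero_mul])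
    have key : ∀ (g g' : W →ₗ[k] k) (c : k), (∀ w, f1 w * f4 w = g w * g' w) →
        (∀ w, g w = c * f1 w) → ∀ w, c * g' w + (-1) * f4 w = 0 := by
      intro g g' c hg hc
      have h3 := zero_of_mul ⊤ f1 (c • g' + (-1 : k) • f4) (fun w _ => by
        rw [LinearMap.add_apply, LinearMap.smul_apply, LinearMap.smul_apply, smul_eq_mul,
          smul_eq_mul]
        have h4 := hg w
        rw [hc w] at h4
        linear_combination (-1 : k) * h4)
      rcases h3 with h3 | h3
      · exact absurd (h3 x trivial) hx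
      · intro w
        have := h3 w trivial
        rwa [LinearMap.add_apply, LinearMap.smul_apply, LinearMap.smul_apply, smul_eq_mul,
          smul_eq_mul] at this
    rcases h2 with h2 | h2
    · have hc := mul_of_ker (g := f2) hx (fun w hw => h2 w (LinearMap.mem_ker.mpr hw))
      refine ⟨f2 x / f1 x, -1, Or.inr (neg_ne_zero.mpr one_ne_zero), Or.inl fun w => ⟨?_, ?_⟩⟩
      · rw [hc w]
        ring
      · exact key f2 f3 _ h hc w
    · have hc := mul_of_ker (g := f3) hx (fun w hw => h2 w (LinearMap.mem_ker.mpr hw))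
      refine ⟨f3 x / f1 x, -1, Or.inr (neg_ne_zero.mpr one_ne_zero), Or.inr fun w => ⟨?_, ?_⟩⟩
      · rw [hc w]
        ring
      · exact key f3 f2 _ (fun w => by rw [h w, mul_comm]) hc w

private theorem span_two {f g1 g2 : W →ₗ[k] k} (h : ∀ w, g1 w = 0 → g2 w = 0 → f w = 0) :
    ∃ p r : k, ∀ w, f w = p * g1 w + r * g2 w := by
  have h1 : f ∈ Submodule.span k (Set.range ![g1, g2]) := by
    refine mem_span_of_iInf_ker_le_ker ?_
    intro w hw
    rw [Submodule.mem_iInf] at hw
    exact LinearMap.mem_ker.mpr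
      (h w (LinearMap.mem_ker.mp (hw 0)) (LinearMap.mem_ker.mp (hw 1)))
  rw [Matrix.range_cons, Matrix.range_cons, Matrix.range_empty, Set.union_empty,
    Set.singleton_union, Submodule.mem_span_pair] at h1
  obtain ⟨p, r, h2⟩ := h1
  refine ⟨p, r, fun w => ?_⟩
  rw [← h2]
  simp

end aux

/-- the linear form `bil G x _` -/
private def lf (G : Mt k N) (x : Fin N → k) : (Fin N → k) →ₗ[k] k where
  toFun v := bil G x v
  map_add' v w := bil_add_right G x v w
  map_smul' c v := bil_smul_right G c x v

private theorem lf_apply (G : Mt k N) (x v : Fin N → k) : lf G x v = bil G x v := rfl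

theorem gam_ne [IsAlgClosed k] {H : Fin 3 → Mt k N} {a b : Fin N → k} (hJ : JL H a b) :
    ∃ u : Fin N → k, bil (H 0) a u = 0 ∧ bil (H 0) b u = 0 ∧ gam H a b u ≠ 0 := by
  by_contra hcon
  push Not at hcon
  set U : Submodule k (Fin N → k) := LinearMap.ker (lf (H 0) a) ⊓ LinearMap.ker (lf (H 0) b)
    with hU
  have hmem : ∀ u, u ∈ U ↔ bil (H 0) a u = 0 ∧ bil (H 0) b u = 0 := by
    intro u
    rw [hU, Submodule.mem_inf, LinearMap.mem_ker, LinearMap.mem_ker, lf_apply, lf_apply]
  have hmin := minors ((lf (H 1) a).domRestrict U) ((lf (H 1) b).domRestrict U)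
    ((lf (H 2) a).domRestrict U) ((lf (H 2) b).domRestrict U) (by
      rintro ⟨u, hu⟩
      simp only [LinearMap.domRestrict_apply, lf_apply]
      have h1 := hcon u ((hmem u).mp hu).1 ((hmem u).mp hu).2
      unfold gam at h1
      rw [cst_self, cst_self, sub_eq_zero] at h1
      exact h1)
  obtain ⟨α, β, hαβ, hI | hII⟩ := hmin
  · -- case (I)
    have hx : ∀ c v, bil (H c) (α • a + β • b) v = α * bil (H c) a v + β * bil (H c) b v := by
      intro c v
      rw [bil_add_left, bil_smul_left, bil_smul_left]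
    obtain ⟨p, r, hpr⟩ := span_two (f := lf (H 1) (α • a + β • b)) (g1 := lf (H 0) a)
      (g2 := lf (H 0) b) (by
        intro w h1 h2
        rw [lf_apply] at h1 h2 ⊢
        have := (hI ⟨w, (hmem w).mpr ⟨h1, h2⟩⟩).1
        simp only [LinearMap.domRestrict_apply, lf_apply] at this
        rw [hx, this])
    simp only [lf_apply] at hpr
    obtain ⟨p', r', hpr'⟩ := span_two (f := lf (H 2) (α • a + β • b)) (g1 := lf (H 0) a)
      (g2 := lf (H 0) b) (by
        intro w h1 h2
        rw [lf_apply] at h1 h2 ⊢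
        have := (hI ⟨w, (hmem w).mpr ⟨h1, h2⟩⟩).2
        simp only [LinearMap.domRestrict_apply, lf_apply] at this
        rw [hx, this])
    simp only [lf_apply] at hpr'
    have hd := hJ α β hαβ ![p * r' - p' * r, p' * β - α * r', α * r - p * β] (by
      intro v
      rw [Fin.sum_univ_three, hpr v, hpr' v, hx 0 v]
      simp only [Matrix.cons_val_zero, Matrix.cons_val_one, Matrix.cons_val]
      ring)
    have hd2 : α * r - p * β = 0 := by
      have := congrFun hd 2
      simpa using this
    have e1 := hJ α β hαβ ![p, -α, 0] (by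
      intro v
      rw [Fin.sum_univ_three, hpr v, hx 0 v]
      simp only [Matrix.cons_val_zero, Matrix.cons_val_one, Matrix.cons_val]
      linear_combination (-(bil (H 0) b v)) * hd2)
    have e2 := hJ α β hαβ ![r, -β, 0] (by
      intro v
      rw [Fin.sum_univ_three, hpr v, hx 0 v]
      simp only [Matrix.cons_val_zero, Matrix.cons_val_one, Matrix.cons_val]
      linear_combination (bil (H 0) a v) * hd2)
    have h1 : α = 0 := by
      have := congrFun e1 1
      simpa using this
    have h2 : β = 0 := by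
      have := congrFun e2 1
      simpa using this
    rcases hαβ with h | h
    · exact h h1
    · exact h h2
  · -- case (II)
    obtain ⟨p, r, hpr⟩ := span_two (f := α • lf (H 1) a + β • lf (H 2) a) (g1 := lf (H 0) a)
      (g2 := lf (H 0) b) (by
        intro w h1 h2
        rw [lf_apply] at h1 h2
        have := (hII ⟨w, (hmem w).mpr ⟨h1, h2⟩⟩).1
        simp only [LinearMap.domRestrict_apply, lf_apply] at this
        simpa [lf_apply] using this)
    obtain ⟨p', r', hpr'⟩ := span_two (f := α • lf (H 1) b + β • lf (H 2) b) (g1 := lf (H 0) a)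
      (g2 := lf (H 0) b) (by
        intro w h1 h2
        rw [lf_apply] at h1 h2
        have := (hII ⟨w, (hmem w).mpr ⟨h1, h2⟩⟩).2
        simp only [LinearMap.domRestrict_apply, lf_apply] at this
        simpa [lf_apply] using this)
    simp only [LinearMap.add_apply, LinearMap.smul_apply, smul_eq_mul, lf_apply] at hpr hpr'
    obtain ⟨t, ht⟩ := Module.End.exists_eigenvalue (Matrix.toLin' !![p, p'; r, r'])
    obtain ⟨z, hz⟩ := ht.exists_hasEigenvector
    have hz1 := hz.apply_eq_smul
    rw [Matrix.toLin'_apply] at hz1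
    have z0 := congrFun hz1 0
    have z1 := congrFun hz1 1
    simp [Matrix.mulVec, dotProduct, Fin.sum_univ_two] at z0 z1
    have hzne : z 0 ≠ 0 ∨ z 1 ≠ 0 := by
      by_contra hc
      push Not at hc
      apply hz.2
      funext i
      fin_cases i
      · exact hc.1
      · exact hc.2
    have hd := hJ (z 0) (z 1) hzne ![-t, α, β] (by
      intro v
      rw [Fin.sum_univ_three, bil_add_left, bil_add_left, bil_add_left, bil_smul_left,
        bil_smul_left, bil_smul_left, bil_smul_left, bil_smul_left, bil_smul_left]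
      simp only [Matrix.cons_val_zero, Matrix.cons_val_one, Matrix.cons_val]
      have q1 := hpr v
      have q2 := hpr' v
      linear_combination z 0 * q1 + z 1 * q2 + (bil (H 0) a v) * z0 + (bil (H 0) b v) * z1)
    have h1 : α = 0 := by
      have := congrFun hd 1
      simpa using this
    have h2 : β = 0 := by
      have := congrFun hd 2
      simpa using this
    rcases hαβ with h | h
    · exact h h1
    · exact h h2

end Pool.Agent.Helper11.QQ
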