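import Mathlib

/-!
# QQ-4: hyperbolic pairs and a nonisotropic vector in the orthogonal space of a line

PROOF. `V = Fin N → E`. Tools: (i) if a functional `f` vanishes on `⋂ ker (φ i)` (finite family) then `f ∈ span (φ i)` (`mem_span_of_iInf_ker_le_ker`); (ii) `r` functionals on `V` have a common kernel of dimension `≥ N - r`.
(1) There is `w1` with `B a w1 = B b w1 = 0`, `B p w1 ≠ 0`: otherwise `B p = α B a + β B b` by (i), so `B (p - α a - β b) = 0`, `p = α a + β b`, contradiction with `hpl`. `p' = w1 - (B w1 w1 / (2 B p w1)) • p` is isotropic and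
`B p p' = B p w1 ≠ 0`. (2) Let `D` be the common kernel of `B a, B b, B p, B p'`, of dimension `≥ N - 4 ≥ 3`. If all `w ∈ D` were isotropic then `B w w' = 0` for `w w' ∈ D` (polarise, char not 2), so by (i) and nondegeneracy
`w ∈ span {a, b, p, p'}`, `w = α a + β b + γ p + δ p'`; `0 = B w p = δ B p' p`, `0 = B w p' = γ B p p'`, so `w ∈ span {a, b}`: `dim D ≤ 2`, contradiction.
-/

set_option autoImplicit false

namespace Pool.Agent.Helper11.QQ

/-- a functional vanishing on a common kernel of functionals `B (v i)` comes from the span of the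
`v i` -/
private theorem hyp_span {E : Type*} [Field E] {N m : ℕ}
    (B : (Fin N → E) →ₗ[E] (Fin N → E) →ₗ[E] E)
    (hnd : ∀ u, (∀ v, B u v = 0) → u = 0) (v : Fin m → Fin N → E) (u : Fin N → E)
    (h : ∀ w, (∀ i, B (v i) w = 0) → B u w = 0) : ∃ c : Fin m → E, u = ∑ i, c i • v i := by
  have h1 : (⨅ i, LinearMap.ker (B (v i))) ≤ LinearMap.ker (B u) := by
    intro w hw
    rw [LinearMap.mem_ker]
    refine h w fun i => ?_
    have := (Submodule.mem_iInf _).1 hw i
    rwa [LinearMap.mem_ker] at this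
  have h2 := mem_span_of_iInf_ker_le_ker (L := fun i => B (v i)) (K := B u) h1
  obtain ⟨c, hc⟩ := (Submodule.mem_span_range_iff_exists_fun E).1 h2
  refine ⟨c, ?_⟩
  have h3 : u - ∑ i, c i • v i = 0 := by
    refine hnd _ fun w => ?_
    have h4 : B (∑ i, c i • v i) = B u := by
      rw [map_sum, ← hc]
      exact Finset.sum_congr rfl fun i _ => map_smul _ _ _
    rw [map_sub, h4, sub_self, LinearMap.zero_apply]
  exact sub_eq_zero.1 h3

theorem hyp {E : Type*} [Field E] (h2 : (2 : E) ≠ 0) {N : ℕ} (hN : 7 ≤ N)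
    (B : (Fin N → E) →ₗ[E] (Fin N → E) →ₗ[E] E) (hB : ∀ x y, B x y = B y x)
    (hnd : ∀ u, (∀ v, B u v = 0) → u = 0) (a b p : Fin N → E) (haa : B a a = 0) (hab : B a b = 0)
    (hbb : B b b = 0) (hap : B a p = 0) (hbp : B b p = 0) (hpp : B p p = 0)
    (hpl : ∀ α β : E, p ≠ α • a + β • b) :
    ∃ p' w0 : Fin N → E, B a p' = 0 ∧ B b p' = 0 ∧ B p' p' = 0 ∧ B p p' ≠ 0 ∧ B a w0 = 0 ∧
      B b w0 = 0 ∧ B p w0 = 0 ∧ B p' w0 = 0 ∧ B w0 w0 ≠ 0 := by
  -- step 1: a vector orthogonal to the line, not to `p`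
  obtain ⟨w1, ha1, hb1, hp1⟩ : ∃ w1, B a w1 = 0 ∧ B b w1 = 0 ∧ B p w1 ≠ 0 := by
    by_contra hcon
    push Not at hcon
    obtain ⟨c, hc⟩ := hyp_span B hnd ![a, b] p (fun w hw => hcon w (hw 0) (hw 1))
    refine hpl (c 0) (c 1) ?_
    rw [hc, Fin.sum_univ_two]
    rfl
  set s : E := B w1 w1 / (2 * B p w1) with hs
  obtain ⟨p', hp'⟩ : ∃ p' : Fin N → E, p' = w1 - s • p := ⟨_, rfl⟩
  have hap' : B a p' = 0 := by rw [hp', map_sub, map_smul, ha1, hap, smul_zero, sub_zero]
  have hbp' : B b p' = 0 := by rw [hp', map_sub, map_smul, hb1, hbp, smul_zero, sub_zero]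
  have hpp' : B p p' = B p w1 := by rw [hp', map_sub, map_smul, hpp, smul_zero, sub_zero]
  have hpp'0 : B p p' ≠ 0 := by rw [hpp']; exact hp1
  have hp'p' : B p' p' = 0 := by
    have e0 : B p' = B w1 - s • B p := by rw [hp', map_sub, map_smul]
    have e1 : B p' p' = B w1 p' - s * B p p' := by
      rw [e0, LinearMap.sub_apply, LinearMap.smul_apply, smul_eq_mul]
    have e2 : B w1 p' = B w1 w1 - s * B w1 p := by
      rw [hp', map_sub, map_smul, smul_eq_mul]
    rw [e1, e2, hpp', hB w1 p, hs]
    field_simp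
    ring
  -- step 2: a nonisotropic vector
  obtain ⟨w0, hw0, hw00⟩ : ∃ w0, (∀ i, B (![a, b, p, p'] i) w0 = 0) ∧ B w0 w0 ≠ 0 := by
    by_contra hcon
    push Not at hcon
    have hiso : ∀ w w', (∀ i, B (![a, b, p, p'] i) w = 0) → (∀ i, B (![a, b, p, p'] i) w' = 0) →
        B w w' = 0 := by
      intro w w' hw hw'
      have e := hcon (w + w') (fun i => by rw [map_add, hw i, hw' i, add_zero])
      rw [map_add, map_add, LinearMap.add_apply, LinearMap.add_apply, hcon w hw, hcon w' hw',
        hB w' w] at e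
      have e' : 2 * B w w' = 0 := by linear_combination e
      exact (mul_eq_zero.1 e').resolve_left h2
    have hspan : ∀ w, (∀ i, B (![a, b, p, p'] i) w = 0) →
        w ∈ Submodule.span E (Set.range ![a, b]) := by
      intro w hw
      obtain ⟨c, hc⟩ := hyp_span B hnd ![a, b, p, p'] w (fun w' hw' => hiso w w' hw hw')
      have hc' : w = c 0 • a + c 1 • b + c 2 • p + c 3 • p' := by
        rw [hc, Fin.sum_univ_four]
        rfl
      have hwp : B p w = 0 := hw 2
      have hwp' : B p' w = 0 := hw 3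
      have h3 : c 3 = 0 := by
        rw [hc', map_add, map_add, map_add, map_smul, map_smul, map_smul, map_smul, hB p a, hB p b,
          hap, hbp, hpp, smul_zero, smul_zero, smul_zero, add_zero, add_zero, zero_add,
          smul_eq_mul] at hwp
        exact (mul_eq_zero.1 hwp).resolve_right hpp'0
      have h4 : c 2 = 0 := by
        rw [hc', map_add, map_add, map_add, map_smul, map_smul, map_smul, map_smul, hB p' a,
          hB p' b, hB p' p, hap', hbp', hp'p', smul_zero, smul_zero, smul_zero, add_zero, add_zero,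
          zero_add, smul_eq_mul] at hwp'
        exact (mul_eq_zero.1 hwp').resolve_right hpp'0
      rw [hc', h3, h4, zero_smul, zero_smul, add_zero, add_zero]
      exact Submodule.add_mem _
        (Submodule.smul_mem _ _ (Submodule.subset_span ⟨0, rfl⟩))
        (Submodule.smul_mem _ _ (Submodule.subset_span ⟨1, rfl⟩))
    -- dimension count
    let F : (Fin N → E) →ₗ[E] (Fin 4 → E) := LinearMap.pi fun i => B (![a, b, p, p'] i)
    have hker : LinearMap.ker F ≤ Submodule.span E (Set.range ![a, b]) := by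
      intro w hw
      refine hspan w fun i => ?_
      have := congrFun (LinearMap.mem_ker.1 hw) i
      exact this
    have h5 : Module.finrank E (LinearMap.ker F) ≤ 2 :=
      (Submodule.finrank_mono hker).trans ((finrank_range_le_card _).trans (by simp))
    have h6 := LinearMap.finrank_range_add_finrank_ker F
    have h7 : Module.finrank E (LinearMap.range F) ≤ 4 := by
      have := Submodule.finrank_le (LinearMap.range F)
      simpa using this
    rw [Module.finrank_fin_fun] at h6
    omega
  exact ⟨p', w0, hap', hbp', hp'p', hpp'0, hw0 0, hw0 1, hw0 2, hw0 3, hw00⟩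

end Pool.Agent.Helper11.QQ
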