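import Pool.Agent.Helper11.QQ.Defs

/-!
# QQ-1: a nondegenerate member of the net

PROOF. Over `P = MvPolynomial (Fin 3) k` let `M` be the matrix `M i j = ∑ c, X c * C (G c i j)`. If some `lam` has `det (∑ c, lam c • G c) ≠ 0` we are done. Otherwise `det M` vanishes at all points (`RingHom.map_det`), so it is the zero
polynomial (`MvPolynomial.funext`, `k` infinite), and `Matrix.exists_mulVec_eq_zero_iff` (`P` is a domain) gives `x : Fin N → P`, `x ≠ 0`, `M *ᵥ x = 0`. Derivation `pderiv c`: `∑ j, C (G c i j) * x j + ∑ j, M i j * pderiv c (x j) = 0` for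
all `i`; multiply by `x i` and sum: `bil (G c) x x + ∑ j, (∑ i, x i * M i j) * pderiv c (x j) = bil (G c) x x = 0` (`M` is symmetric). Some `x i ≠ 0`; `x i * X 0 ≠ 0`, so there is a point `p : Fin 3 → k` with `eval p (x i) ≠ 0`, `p 0 ≠ 0`.
The vector `eval p ∘ x` contradicts `Smo3` with `μ = p`.
-/

set_option autoImplicit false

namespace Pool.Agent.Helper11.QQ

variable {k : Type*} [Field k] {N : ℕ}

/-- the form against a basis vector -/
private theorem bil_single (G : Mt k N) (x : Fin N → k) (j : Fin N) :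
    bil G x (Pi.single j 1) = ∑ i, G i j * x i := by
  unfold bil
  refine Finset.sum_congr rfl fun i _ => ?_
  rw [Finset.sum_eq_single j]
  · rw [Pi.single_eq_same, mul_one]
    rfl
  · intro l _ hl
    rw [Pi.single_eq_of_ne hl, mul_zero]
  · intro hj
    exact absurd (Finset.mem_univ j) hj

/-- the generic matrix of the net -/
private noncomputable def gmat (G : Fin 3 → Mt k N) :
    Matrix (Fin N) (Fin N) (MvPolynomial (Fin 3) k) :=
  fun i j => ∑ c, MvPolynomial.X c * MvPolynomial.C (G c i j)

private theorem gmat_symm {G : Fin 3 → Mt k N} (hG : ∀ c, Sym (G c)) (i j : Fin N) :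
    gmat G i j = gmat G j i := by
  unfold gmat
  refine Finset.sum_congr rfl fun c _ => ?_
  rw [hG c i j]

private theorem pderiv_gmat (G : Fin 3 → Mt k N) (c : Fin 3) (i j : Fin N) :
    MvPolynomial.pderiv c (gmat G i j) = MvPolynomial.C (G c i j) := by
  classical
  unfold gmat
  rw [map_sum, Finset.sum_eq_single c]
  · rw [Derivation.leibniz, MvPolynomial.pderiv_C, MvPolynomial.pderiv_X_self]
    simp
  · intro d _ hd
    rw [Derivation.leibniz, MvPolynomial.pderiv_C, MvPolynomial.pderiv_X_of_ne hd]
    simp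
  · intro hj
    exact absurd (Finset.mem_univ c) hj

/-- the kernel vector is isotropic -/
private theorem ker_iso {G : Fin 3 → Mt k N} (hG : ∀ c, Sym (G c))
    {x : Fin N → MvPolynomial (Fin 3) k} (hx : ∀ i, ∑ j, gmat G i j * x j = 0) (c : Fin 3) :
    bil (G c) x x = 0 := by
  have h1 : ∀ i, ∑ j, MvPolynomial.C (G c i j) * x j
      + ∑ j, gmat G i j * MvPolynomial.pderiv c (x j) = 0 := by
    intro i
    have h := congrArg (MvPolynomial.pderiv c) (hx i)
    rw [map_sum, map_zero] at h
    rw [← h, ← Finset.sum_add_distrib]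
    refine Finset.sum_congr rfl fun j _ => ?_
    rw [Derivation.leibniz, pderiv_gmat, smul_eq_mul, smul_eq_mul]
    ring
  have h2 : ∑ i, x i * (∑ j, MvPolynomial.C (G c i j) * x j
      + ∑ j, gmat G i j * MvPolynomial.pderiv c (x j)) = 0 := by
    refine Finset.sum_eq_zero fun i _ => ?_
    rw [h1, mul_zero]
  have h3 : ∑ i, x i * ∑ j, gmat G i j * MvPolynomial.pderiv c (x j) = 0 := by
    have h4 : ∑ i, x i * ∑ j, gmat G i j * MvPolynomial.pderiv c (x j)
        = ∑ j, (∑ i, gmat G j i * x i) * MvPolynomial.pderiv c (x j) := by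
      simp only [Finset.mul_sum, Finset.sum_mul]
      rw [Finset.sum_comm]
      refine Finset.sum_congr rfl fun j _ => Finset.sum_congr rfl fun i _ => ?_
      rw [gmat_symm hG i j]
      ring
    rw [h4]
    refine Finset.sum_eq_zero fun j _ => ?_
    rw [hx, zero_mul]
  simp only [mul_add, Finset.sum_add_distrib] at h2
  rw [h3, add_zero] at h2
  rw [← h2]
  unfold bil
  refine Finset.sum_congr rfl fun i _ => ?_
  rw [Finset.mul_sum]
  refine Finset.sum_congr rfl fun j _ => ?_
  rw [MvPolynomial.algebraMap_eq]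
  ring

theorem exists_nd [Infinite k] {G : Fin 3 → Mt k N} (hG : ∀ c, Sym (G c)) (hS : Smo3 G) :
    ∃ lam : Fin 3 → k, ∀ u : Fin N → k, (∀ v, ∑ c, lam c * bil (G c) u v = 0) → u = 0 := by
  classical
  by_contra hcon
  push Not at hcon
  have hdet : (gmat G).det = 0 := by
    apply MvPolynomial.funext
    intro p
    rw [map_zero, RingHom.map_det, ← Matrix.exists_mulVec_eq_zero_iff]
    obtain ⟨u, hu, hu0⟩ := hcon p
    refine ⟨u, hu0, ?_⟩
    funext i
    have h := hu (Pi.single i 1)
    simp only [bil_single] at h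
    rw [Pi.zero_apply, ← h]
    simp only [Matrix.mulVec, dotProduct, RingHom.mapMatrix_apply, Matrix.map_apply, gmat, map_sum,
      map_mul, MvPolynomial.eval_X, MvPolynomial.eval_C, Finset.sum_mul, Finset.mul_sum]
    rw [Finset.sum_comm]
    refine Finset.sum_congr rfl fun c _ => Finset.sum_congr rfl fun j _ => ?_
    rw [hG c i j]
    ring
  obtain ⟨x, hx0, hx⟩ := Matrix.exists_mulVec_eq_zero_iff.mpr hdet
  have hx' : ∀ i, ∑ j, gmat G i j * x j = 0 := fun i => congrFun hx i
  obtain ⟨i, hi⟩ := Function.ne_iff.mp hx0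
  rw [Pi.zero_apply] at hi
  have hne : x i * MvPolynomial.X 0 ≠ 0 := mul_ne_zero hi (MvPolynomial.X_ne_zero 0)
  have hp : ∃ p : Fin 3 → k, MvPolynomial.eval p (x i * MvPolynomial.X 0) ≠ 0 := by
    by_contra hc
    push Not at hc
    apply hne
    apply MvPolynomial.funext
    intro p
    rw [hc, map_zero]
  obtain ⟨p, hp⟩ := hp
  rw [map_mul, MvPolynomial.eval_X] at hp
  have hp1 : MvPolynomial.eval p (x i) ≠ 0 := left_ne_zero_of_mul hp
  have hp2 : p 0 ≠ 0 := right_ne_zero_of_mul hp
  have hpm : p = 0 := by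
    refine hS (fun j => MvPolynomial.eval p (x j)) ?_ ?_ p ?_
    · intro h
      exact hp1 (congrFun h i)
    · intro c
      have h := bil_map (G c) (MvPolynomial.aeval p) x x
      rw [ker_iso hG hx' c, map_zero] at h
      simpa [MvPolynomial.coe_aeval_eq_eval] using h
    · intro v
      have h : ∀ i, ∑ j, (∑ c, p c * G c i j) * MvPolynomial.eval p (x j) = 0 := by
        intro i
        have h := congrArg (MvPolynomial.eval p) (hx' i)
        rw [map_zero, map_sum] at h
        rw [← h]
        refine Finset.sum_congr rfl fun j _ => ?_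
        simp only [gmat, map_sum, map_mul, MvPolynomial.eval_X, MvPolynomial.eval_C]
      have h5 : ∑ c, p c * bil (G c) (fun j => MvPolynomial.eval p (x j)) v
          = ∑ i, (∑ j, (∑ c, p c * G c i j) * MvPolynomial.eval p (x j)) * v i := by
        unfold bil
        simp only [Finset.mul_sum, Finset.sum_mul, Algebra.algebraMap_self, RingHom.id_apply]
        rw [Finset.sum_congr rfl fun c _ => Finset.sum_comm, Finset.sum_comm]
        refine Finset.sum_congr rfl fun j _ => ?_
        rw [Finset.sum_comm]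
        refine Finset.sum_congr rfl fun i _ => Finset.sum_congr rfl fun c _ => ?_
        rw [hG c i j]
        ring
      rw [h5]
      refine Finset.sum_eq_zero fun i _ => ?_
      rw [h i, zero_mul]
  exact hp2 (congrFun hpm 0)

end Pool.Agent.Helper11.QQ
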