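import Pool.Agent.Helper11.QQ.Defs

/-!
# QQ-6: the degenerate case, a plane

PROOF. Write `A(u), B(u), q(u), D(u, v) : Fin 3 → k` for `c ↦ bil (G c) a u`, `bil (G c) b u`, `bil (G c) u u`, `bil (G c) u v`. `T = {u : A(u) = 0}` has dimension `≥ N - 3 ≥ 4`. By `hD` the kernel of `u ↦ B(u)` on `T` is contained in `span {a, b}`,
of dimension `≤ 2`; so the image `B(T)` has dimension `≥ 2`: there are `u1, u2 ∈ T` with `B(u1), B(u2)` linearly independent. By `hP` every linear form `lam` which kills `B(u)` kills `q(u)` (`u ∈ T`), so `q(u) = m B(u)` for some `m` if `B(u) ≠ 0`.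
Replace `u1` by `u1 - (m1 / 2) • b`: then `q(u1) = 0` (`q(u - c b) = q(u) - 2 c B(u)`), still `u1 ∈ T`, same `B(u1)`; the same for `u2`. For `s = 1, -1`: `q(u1 + s u2) = 2 s D(u1, u2)` is a multiple of `B(u1) + s B(u2)`; these two vectors are
independent, so `D(u1, u2) = 0`. So all `bil (G c)` vanish on the span of `a, u1, u2`, which are linearly independent (apply `B`: `B(a) = 0`). The plane: `y = cst a + tt • cst u1 + ss • cst u2`; `exists_dual` for `![a, u1, u2]` gives linear forms
with values `1`, `tt`, `ss` on `y`; some `y i ≠ 0`; `ratio_mem` and `gen_top` (all in `Pool/Agent/Helper72/QT/Ratio.lean`).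
-/

set_option autoImplicit false

namespace Pool.Agent.Helper11.QQ

open Pool.Agent.Helper72.QT

variable {k : Type*} [Field k] {N : ℕ}

/-- a plane on the three quadrics is a rational surface -/
theorem rat_plane {G : Fin 3 → Mt k N} (u : Fin 3 → Fin N → k) (hu : LinearIndependent k u)
    (h : ∀ c i j, bil (G c) (u i) (u j) = 0) : ContRat3 G := by
  obtain ⟨a, ha⟩ := exists_dual u hu
  set y : Fin N → KK k := cst (KK k) (u 0) + tt k • cst (KK k) (u 1) + ss k • cst (KK k) (u 2)
    with hy
  have hy1 : ∀ j, y j = ∑ q, (![1, tt k, ss k] : Fin 3 → KK k) q * algebraMap k (KK k) (u q j) := by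
    intro j
    rw [Fin.sum_univ_three]
    simp [hy, cst]
  have h0 : ∑ j, algebraMap k (KK k) (a 0 j) * y j = 1 := by
    have e := ha ![1, tt k, ss k] 0
    simp only [← hy1] at e
    simpa using e
  have h1 : ∑ j, algebraMap k (KK k) (a 1 j) * y j = tt k := by
    have e := ha ![1, tt k, ss k] 1
    simp only [← hy1] at e
    simpa using e
  have h2 : ∑ j, algebraMap k (KK k) (a 2 j) * y j = ss k := by
    have e := ha ![1, tt k, ss k] 2
    simp only [← hy1] at e
    simpa using e
  have hne : ∃ i, y i ≠ 0 := by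
    by_contra hcon
    push Not at hcon
    simp [hcon] at h0
  obtain ⟨i, hi⟩ := hne
  refine ⟨y, fun c => ?_, i, hi, ?_⟩
  · have hc : ∀ p q, bil (G c) (cst (KK k) (u p)) (cst (KK k) (u q)) = 0 := by
      intro p q
      rw [bil_cst, h, map_zero]
    rw [hy]
    simp only [bil_add_left, bil_add_right, bil_smul_left, bil_smul_right, hc]
    ring
  · refine gen_top _ ?_ ?_
    · have e := ratio_mem y i hi (a 2) (a 0)
      rwa [h0, h2, div_one] at e
    · have e := ratio_mem y i hi (a 1) (a 0)
      rwa [h0, h1, div_one] at e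

/-- a vector on which all linear forms killing `v` vanish is a multiple of `v` -/
theorem mul_of_forms {v w : Fin 3 → k} (hv : v ≠ 0)
    (h : ∀ lam : Fin 3 → k, ∑ c, lam c * v c = 0 → ∑ c, lam c * w c = 0) :
    ∃ m : k, ∀ c, w c = m * v c := by
  obtain ⟨c, hc⟩ := Function.ne_iff.1 hv
  rw [Pi.zero_apply] at hc
  refine ⟨w c / v c, fun d => ?_⟩
  have e := h (fun e => (if e = d then v c else 0) - (if e = c then v d else 0)) (by
    simp only [sub_mul, ite_mul, zero_mul, Finset.sum_sub_distrib, Finset.sum_ite_eq',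
      Finset.mem_univ, if_true]
    ring)
  simp only [sub_mul, ite_mul, zero_mul, Finset.sum_sub_distrib, Finset.sum_ite_eq',
    Finset.mem_univ, if_true] at e
  field_simp
  linear_combination e

theorem plane (h2 : (2 : k) ≠ 0) (hN : 7 ≤ N) {G : Fin 3 → Mt k N} (hG : ∀ c, Sym (G c))
    {a b : Fin N → k} (hL : Line G a b) (hab : LinearIndependent k ![a, b])
    (hP : ∀ u : Fin N → k, (∀ c, bil (G c) a u = 0) → ∀ lam : Fin 3 → k,
      ∑ c, lam c * bil (G c) b u = 0 → ∑ c, lam c * bil (G c) u u = 0)
    (hD : ∀ v : Fin N → k, (∀ c, bil (G c) a v = 0 ∧ bil (G c) b v = 0) →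
      ∃ α β : k, v = α • a + β • b) : ContRat3 G := by
  classical
  -- the linear maps
  let A : (Fin N → k) →ₗ[k] (Fin 3 → k) :=
    { toFun := fun u c => bil (G c) a u
      map_add' := fun x y => by
        funext c
        exact bil_add_right (G c) a x y
      map_smul' := fun r x => by
        funext c
        exact bil_smul_right (G c) r a x }
  let B : (Fin N → k) →ₗ[k] (Fin 3 → k) :=
    { toFun := fun u c => bil (G c) b u
      map_add' := fun x y => by
        funext c
        exact bil_add_right (G c) b x y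
      map_smul' := fun r x => by
        funext c
        exact bil_smul_right (G c) r b x }
  have hA : ∀ u c, A u c = bil (G c) a u := fun _ _ => rfl
  have hB : ∀ u c, B u c = bil (G c) b u := fun _ _ => rfl
  -- two vectors with independent images
  have hT : 4 ≤ Module.finrank k (LinearMap.ker A) := by
    have e1 := LinearMap.finrank_range_add_finrank_ker A
    have e2 : Module.finrank k (LinearMap.range A) ≤ 3 := by
      refine (Submodule.finrank_le _).trans ?_
      simp
    rw [Module.finrank_fin_fun] at e1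
    omega
  have hK : Module.finrank k (LinearMap.ker (B.domRestrict (LinearMap.ker A))) ≤ 2 := by
    have hle : (LinearMap.ker (B.domRestrict (LinearMap.ker A))).map
        (LinearMap.ker A).subtype ≤ Submodule.span k (({a, b} : Finset (Fin N → k)) :
          Set (Fin N → k)) := by
      rintro _ ⟨⟨u, hu⟩, hu2, rfl⟩
      have e1 : ∀ c, bil (G c) a u = 0 := fun c => congrFun (LinearMap.mem_ker.1 hu) c
      have e2 : ∀ c, bil (G c) b u = 0 := fun c => congrFun (LinearMap.mem_ker.1 hu2) c
      obtain ⟨α, β, hv⟩ := hD u fun c => ⟨e1 c, e2 c⟩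
      change u ∈ _
      rw [hv]
      refine Submodule.add_mem _ (Submodule.smul_mem _ _ (Submodule.subset_span ?_))
        (Submodule.smul_mem _ _ (Submodule.subset_span ?_))
      · simp
      · simp
    have e1 := Submodule.finrank_mono hle
    have e2 := (finrank_span_finset_le_card (R := k) ({a, b} : Finset (Fin N → k))).trans
      Finset.card_le_two
    have e3 := LinearEquiv.finrank_eq (Submodule.equivMapOfInjective (LinearMap.ker A).subtype
      (Submodule.subtype_injective _) (LinearMap.ker (B.domRestrict (LinearMap.ker A))))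
    rw [e3]
    exact e1.trans e2
  have hR : 1 < Module.finrank k (LinearMap.range (B.domRestrict (LinearMap.ker A))) := by
    have e1 := LinearMap.finrank_range_add_finrank_ker (B.domRestrict (LinearMap.ker A))
    omega
  have hu : ∃ u1 u2 : Fin N → k, (∀ c, bil (G c) a u1 = 0) ∧ (∀ c, bil (G c) a u2 = 0) ∧
      ∀ s t : k, (∀ c, s * bil (G c) b u1 + t * bil (G c) b u2 = 0) → s = 0 ∧ t = 0 := by
    have : Nontrivial (LinearMap.range (B.domRestrict (LinearMap.ker A))) :=
      Module.nontrivial_of_finrank_pos (R := k) (by omega)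
    obtain ⟨x, hx⟩ := exists_ne (0 : LinearMap.range (B.domRestrict (LinearMap.ker A)))
    obtain ⟨y, hy⟩ := exists_linearIndependent_pair_of_one_lt_finrank hR hx
    rw [LinearIndependent.pair_iff] at hy
    obtain ⟨x, ⟨u1, hu1⟩, rfl⟩ := x
    obtain ⟨y, ⟨u2, hu2⟩, rfl⟩ := y
    refine ⟨u1, u2, fun c => congrFun (LinearMap.mem_ker.1 hu1) c,
      fun c => congrFun (LinearMap.mem_ker.1 hu2) c, fun s t hst => hy s t ?_⟩
    apply Subtype.ext
    funext c
    exact hst c
  obtain ⟨v1, v2, hv1, hv2, hv⟩ := hu
  -- normalization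
  have hn : ∀ u : Fin N → k, (∀ c, bil (G c) a u = 0) → (∃ c, bil (G c) b u ≠ 0) →
      ∃ u' : Fin N → k, (∀ c, bil (G c) a u' = 0) ∧ (∀ c, bil (G c) b u' = bil (G c) b u) ∧
        ∀ c, bil (G c) u' u' = 0 := by
    intro u hu hb
    obtain ⟨c0, hc0⟩ := hb
    obtain ⟨m, hm⟩ := mul_of_forms (v := fun c => bil (G c) b u) (w := fun c => bil (G c) u u)
      (fun hcon => hc0 (congrFun hcon c0)) (hP u hu)
    refine ⟨u - (m / 2) • b, fun c => ?_, fun c => ?_, fun c => ?_⟩
    · rw [bil_sub_right, bil_smul_right, hu, hL.ab]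
      ring
    · rw [bil_sub_right, bil_smul_right, hL.bb]
      ring
    · rw [bil_sub_left, bil_sub_right, bil_sub_right, bil_smul_left, bil_smul_left,
        bil_smul_right, bil_smul_right, hL.bb, bil_comm (hG c) u b]
      have e := hm c
      rw [e]
      field_simp
      ring
  have hb1 : ∃ c, bil (G c) b v1 ≠ 0 := by
    by_contra hcon
    push Not at hcon
    exact one_ne_zero (hv 1 0 fun c => by rw [hcon c]; ring).1
  have hb2 : ∃ c, bil (G c) b v2 ≠ 0 := by
    by_contra hcon
    push Not at hcon
    exact one_ne_zero (hv 0 1 fun c => by rw [hcon c]; ring).2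
  obtain ⟨u1, ha1, hb1, hq1⟩ := hn v1 hv1 hb1
  obtain ⟨u2, ha2, hb2, hq2⟩ := hn v2 hv2 hb2
  have hi : ∀ s t : k, (∀ c, s * bil (G c) b u1 + t * bil (G c) b u2 = 0) → s = 0 ∧ t = 0 := by
    intro s t hst
    refine hv s t fun c => ?_
    rw [← hb1, ← hb2]
    exact hst c
  -- the mixed terms
  have hmix : ∀ c, bil (G c) u1 u2 = 0 := by
    obtain ⟨m, hm⟩ := mul_of_forms (v := fun c => bil (G c) b (u1 + u2))
      (w := fun c => bil (G c) (u1 + u2) (u1 + u2))
      (fun hcon => one_ne_zero (hi 1 1 fun c => by
        have e := congrFun hcon c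
        simp only [bil_add_right, Pi.zero_apply] at e
        linear_combination e).1)
      (hP _ fun c => by rw [bil_add_right, ha1, ha2, add_zero])
    obtain ⟨n, hn⟩ := mul_of_forms (v := fun c => bil (G c) b (u1 - u2))
      (w := fun c => bil (G c) (u1 - u2) (u1 - u2))
      (fun hcon => one_ne_zero (hi 1 (-1) fun c => by
        have e := congrFun hcon c
        simp only [bil_sub_right, Pi.zero_apply] at e
        linear_combination e).1)
      (hP _ fun c => by rw [bil_sub_right, ha1, ha2, sub_zero])
    have hm' : ∀ c, 2 * bil (G c) u1 u2 = m * (bil (G c) b u1 + bil (G c) b u2) := by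
      intro c
      have e := hm c
      simp only [bil_add_left, bil_add_right, hq1, hq2, bil_comm (hG c) u2 u1] at e
      linear_combination e
    have hn' : ∀ c, -2 * bil (G c) u1 u2 = n * (bil (G c) b u1 - bil (G c) b u2) := by
      intro c
      have e := hn c
      simp only [bil_sub_left, bil_sub_right, hq1, hq2, bil_comm (hG c) u2 u1] at e
      linear_combination e
    obtain ⟨e1, e2⟩ := hi (m + n) (m - n) fun c => by
      linear_combination -(hm' c) - hn' c
    have hm0 : m = 0 := by
      have e3 : 2 * m = 0 := by linear_combination e1 + e2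
      rcases mul_eq_zero.1 e3 with h | h
      · exact absurd h h2
      · exact h
    intro c
    have e := hm' c
    rw [hm0, zero_mul] at e
    rcases mul_eq_zero.1 e with h | h
    · exact absurd h h2
    · exact h
  -- the plane
  have ha0 : a ≠ 0 := hab.ne_zero 0
  refine rat_plane ![a, u1, u2] ?_ ?_
  · rw [Fintype.linearIndependent_iff]
    intro g hg
    rw [Fin.sum_univ_three] at hg
    change g 0 • a + g 1 • u1 + g 2 • u2 = 0 at hg
    have e0 : ∀ c, g 1 * bil (G c) b u1 + g 2 * bil (G c) b u2 = 0 := by
      intro c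
      have e := congrArg (fun x => bil (G c) b x) hg
      simp only [bil_add_right, bil_smul_right, bil_zero_right, hL.ba hG] at e
      linear_combination e
    obtain ⟨e1, e2⟩ := hi _ _ e0
    rw [e1, e2, zero_smul, zero_smul, add_zero, add_zero] at hg
    have e3 : g 0 = 0 := by
      rcases smul_eq_zero.1 hg with h | h
      · exact h
      · exact absurd h ha0
    intro i
    fin_cases i
    · exact e3
    · exact e1
    · exact e2
  · intro c i j
    fin_cases i <;> fin_cases j
    · exact hL.aa c
    · exact ha1 c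
    · exact ha2 c
    · exact (bil_comm (hG c) _ _).trans (ha1 c)
    · exact hq1 c
    · exact hmix c
    · exact (bil_comm (hG c) _ _).trans (ha2 c)
    · exact (bil_comm (hG c) _ _).trans (hmix c)
    · exact hq2 c

end Pool.Agent.Helper11.QQ
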