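import Pool.Agent.Helper11.QQ.PropA
import Pool.Agent.Helper11.QQ.Plane
import Pool.Agent.Helper11.QQ.NDlam

/-!
# QQ-10: every smooth complete intersection of three quadrics in `ℙ^n`, `n ≥ 6`, which contains a
line contains a rational surface
-/

set_option autoImplicit false

namespace Pool.Agent.Helper11.QQ

open Polynomial Pool.Agent.Helper72.QT

variable {k : Type*} [Field k] {N : ℕ}

/-- change of the basis of the net -/
def base (P : Fin 3 → Fin 3 → k) (G : Fin 3 → Mt k N) : Fin 3 → Mt k N :=
  fun c i j => ∑ e, P c e * G e i j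

theorem bil_base {R : Type*} [CommRing R] [Algebra k R] (P : Fin 3 → Fin 3 → k)
    (G : Fin 3 → Mt k N) (c : Fin 3) (x y : Fin N → R) :
    bil (base P G c) x y = ∑ e, algebraMap k R (P c e) * bil (G e) x y := by
  simp only [bil, base, map_sum, map_mul, Finset.mul_sum, Finset.sum_mul]
  rw [Finset.sum_comm]
  have h1 : ∀ f : Fin N → Fin N → Fin 3 → R,
      ∑ i, ∑ j, ∑ e, f i j e = ∑ e, ∑ i, ∑ j, f i j e := by
    intro f
    rw [Finset.sum_congr rfl fun i _ => Finset.sum_comm, Finset.sum_comm]
  rw [Finset.sum_comm, h1]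
  refine Finset.sum_congr rfl fun e _ => Finset.sum_congr rfl fun i _ =>
    Finset.sum_congr rfl fun j _ => ?_
  ring

theorem bil_base_k (P : Fin 3 → Fin 3 → k) (G : Fin 3 → Mt k N) (c : Fin 3) (x y : Fin N → k) :
    bil (base P G c) x y = ∑ e, P c e * bil (G e) x y := bil_base P G c x y

theorem sym_base {G : Fin 3 → Mt k N} (hG : ∀ c, Sym (G c)) (P : Fin 3 → Fin 3 → k) (c : Fin 3) :
    Sym (base P G c) := by
  intro i j
  exact Finset.sum_congr rfl fun e _ => by rw [hG e i j]

theorem line_base {G : Fin 3 → Mt k N} {a b : Fin N → k} (hL : Line G a b)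
    (P : Fin 3 → Fin 3 → k) : Line (base P G) a b := by
  refine ⟨fun c => ?_, fun c => ?_, fun c => ?_⟩ <;> rw [bil_base_k] <;>
    refine Finset.sum_eq_zero fun e _ => ?_
  · rw [hL.aa, mul_zero]
  · rw [hL.ab, mul_zero]
  · rw [hL.bb, mul_zero]

theorem jl_base {G : Fin 3 → Mt k N} {a b : Fin N → k} (hJ : JL G a b) {P : Fin 3 → Fin 3 → k}
    (hP : LinearIndependent k P) : JL (base P G) a b := by
  intro α β hαβ μ hμ
  have h1 : (fun e => ∑ c, μ c * P c e) = 0 := by
    refine hJ α β hαβ _ fun v => ?_
    rw [← hμ v]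
    simp only [bil_base_k, Finset.sum_mul, Finset.mul_sum]
    rw [Finset.sum_comm]
    refine Finset.sum_congr rfl fun c _ => Finset.sum_congr rfl fun e _ => ?_
    ring
  rw [Fintype.linearIndependent_iff] at hP
  funext c
  refine hP μ ?_ c
  rw [← h1]
  funext e
  rw [Finset.sum_apply]
  rfl

theorem contRat_base {G : Fin 3 → Mt k N} {P : Fin 3 → Fin 3 → k} (hP : LinearIndependent k P)
    (h : ContRat3 (base P G)) : ContRat3 G := by
  obtain ⟨y, hy, hrest⟩ := h
  refine ⟨y, fun e => ?_, hrest⟩
  have hspan : ⊤ ≤ Submodule.span k (Set.range P) := by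
    rw [top_le_iff]
    apply hP.span_eq_top_of_card_eq_finrank
    simp
  have hmem : (Pi.single e (1 : k) : Fin 3 → k) ∈ Submodule.span k (Set.range P) :=
    hspan Submodule.mem_top
  rw [Submodule.mem_span_range_iff_exists_fun] at hmem
  obtain ⟨c, hc⟩ := hmem
  have h1 : ∑ f, algebraMap k (KK k) (c f) * bil (base P G f) y y = bil (G e) y y := by
    simp only [bil_base, Finset.mul_sum]
    rw [Finset.sum_comm]
    have h2 : ∀ l : Fin 3, ∑ f, algebraMap k (KK k) (c f) *
        (algebraMap k (KK k) (P f l) * bil (G l) y y) =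
        algebraMap k (KK k) ((Pi.single e (1 : k) : Fin 3 → k) l) * bil (G l) y y := by
      intro l
      have h3 := congrFun hc l
      rw [Finset.sum_apply] at h3
      simp only [Pi.smul_apply, smul_eq_mul] at h3
      rw [← h3, map_sum, Finset.sum_mul]
      refine Finset.sum_congr rfl fun f _ => ?_
      rw [map_mul]
      ring
    rw [Finset.sum_congr rfl fun l _ => h2 l]
    rw [Finset.sum_eq_single e]
    · rw [Pi.single_eq_same, map_one, one_mul]
    · intro l _ hl
      rw [Pi.single_eq_of_ne hl, map_zero, zero_mul]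
    · intro he
      exact absurd (Finset.mem_univ e) he
  rw [← h1]
  exact Finset.sum_eq_zero fun f _ => by rw [hy, mul_zero]

/-- a pencil whose second generator is nondegenerate is nondegenerate over `k(t)` -/
theorem nd_pencil (H : Fin 3 → Mt k N) (hH : ∀ c, Sym (H c))
    (h1 : ∀ u : Fin N → k, (∀ v, bil (H 1) u v = 0) → u = 0) (u : Fin N → RatFunc k)
    (hu : ∀ v, bt H RatFunc.X u v = 0) : u = 0 := by
  classical
  obtain ⟨A, hA⟩ : ∃ A : Matrix (Fin N) (Fin N) k, A = Matrix.of (H 1) := ⟨_, rfl⟩
  obtain ⟨B, hB⟩ : ∃ B : Matrix (Fin N) (Fin N) k, B = Matrix.of (H 0) := ⟨_, rfl⟩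
  have hdA : A.det ≠ 0 := by
    intro h
    obtain ⟨v, hv0, hv⟩ := Matrix.exists_mulVec_eq_zero_iff.2 h
    apply hv0
    refine h1 v fun w => ?_
    rw [bil_comm (hH 1)]
    unfold bil
    have : ∀ i, ∑ j, algebraMap k k (H 1 i j) * w i * v j = w i * (A.mulVec v) i := by
      intro i
      rw [hA, Matrix.mulVec, dotProduct, Finset.mul_sum]
      refine Finset.sum_congr rfl fun j _ => ?_
      show H 1 i j * w i * v j = w i * (H 1 i j * v j)
      ring
    rw [Finset.sum_congr rfl fun i _ => this i, hv]
    exact Finset.sum_eq_zero fun i _ => mul_zero _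
  obtain ⟨M, hM⟩ : ∃ M : Matrix (Fin N) (Fin N) k[X],
      M = (X : k[X]) • A.map C + B.map C := ⟨_, rfl⟩
  have hdM : M.det ≠ 0 := by
    intro h
    have h3 := Polynomial.coeff_det_X_add_C_card A B
    rw [← hM, h, coeff_zero] at h3
    exact hdA h3.symm
  have hdR : (M.map (algebraMap k[X] (RatFunc k))).det ≠ 0 := by
    have h3 := RingHom.map_det (algebraMap k[X] (RatFunc k)) M
    rw [RingHom.mapMatrix_apply] at h3
    rw [← h3, Ne, map_eq_zero_iff _ (RatFunc.algebraMap_injective k)]
    exact hdM
  by_contra hne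
  apply hdR
  refine Matrix.exists_mulVec_eq_zero_iff.1 ⟨u, hne, ?_⟩
  funext i
  have h3 := hu (Pi.single i 1)
  rw [bt_comm hH] at h3
  have h4 : ∀ c, bil (H c) (Pi.single i (1 : RatFunc k)) u =
      ∑ j, algebraMap k (RatFunc k) (H c i j) * u j := by
    intro c
    unfold bil
    rw [Finset.sum_eq_single i]
    · refine Finset.sum_congr rfl fun j _ => ?_
      rw [Pi.single_eq_same, mul_one]
    · intro l _ hl
      refine Finset.sum_eq_zero fun j _ => ?_
      rw [Pi.single_eq_of_ne hl]
      ring
    · intro h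
      exact absurd (Finset.mem_univ i) h
  rw [bt, h4, h4, Finset.mul_sum, ← Finset.sum_add_distrib] at h3
  rw [Matrix.mulVec, dotProduct, Pi.zero_apply, ← h3]
  refine Finset.sum_congr rfl fun j _ => ?_
  rw [Matrix.map_apply, hM, hA, hB, Matrix.add_apply, Matrix.smul_apply, Matrix.map_apply,
    Matrix.map_apply, Matrix.of_apply, Matrix.of_apply, smul_eq_mul, map_add, map_mul,
    RatFunc.algebraMap_X, RatFunc.algebraMap_C, RatFunc.algebraMap_C]
  show (RatFunc.X * algebraMap k (RatFunc k) (H 1 i j) + algebraMap k (RatFunc k) (H 0 i j)) *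
    u j = _
  ring

/-- a vector which completes two independent ones to a basis -/
theorem exists_third (x y : Fin 3 → k) (hxy : LinearIndependent k ![x, y]) :
    ∃ z : Fin 3 → k, LinearIndependent k ![x, y, z] := by
  by_contra hcon
  push Not at hcon
  have h1 : ∀ z : Fin 3 → k, z ∈ Submodule.span k (Set.range ![x, y]) := by
    intro z
    by_contra hz
    apply hcon z
    have h2 : LinearIndependent k (Fin.snoc ![x, y] z : Fin 3 → Fin 3 → k) :=
      hxy.finSnoc hz
    have h3 : (Fin.snoc ![x, y] z : Fin 3 → Fin 3 → k) = ![x, y, z] := by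
      funext i
      fin_cases i <;> rfl
    rwa [h3] at h2
  have h2 : (⊤ : Submodule k (Fin 3 → k)) ≤ Submodule.span k (Set.range ![x, y]) :=
    fun z _ => h1 z
  have h3 := Submodule.finrank_mono h2
  rw [finrank_top, Module.finrank_fin_fun] at h3
  have h4 := finrank_range_le_card (R := k) ![x, y]
  rw [Fintype.card_fin, Set.finrank] at h4
  omega

theorem rat_line [IsAlgClosed k] (h2 : (2 : k) ≠ 0) (hN : 7 ≤ N) {G : Fin 3 → Mt k N}
    (hG : ∀ c, Sym (G c)) (hS : Smo3 G) {a b : Fin N → k} (hL : Line G a b)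
    (hab : LinearIndependent k ![a, b]) : ContRat3 G := by
  classical
  have : Infinite k := IsAlgClosed.instInfinite
  have hJ := JL_of_smo hG hL hab hS
  obtain ⟨l0, hl0⟩ := exists_nd hG hS
  by_contra hno
  -- the conclusion of `propA` for members which are independent of `l0`
  have key : ∀ l : Fin 3 → k, LinearIndependent k ![l, l0] →
      (∀ v : Fin N → k, (∀ c, bil (G c) a v = 0 ∧ bil (G c) b v = 0) →
        ∃ α β : k, v = α • a + β • b) ∧
      ∀ u : Fin N → k, (∀ c, bil (G c) a u = 0) → ∑ c, l c * bil (G c) b u = 0 →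
        ∑ c, l c * bil (G c) u u = 0 := by
    intro l hl
    obtain ⟨l2, hl2⟩ := exists_third l l0 hl
    have hN0 : ∀ u : Fin N → k, (∀ v, bil (base ![l, l0, l2] G 1) u v = 0) → u = 0 := by
      intro u hu
      refine hl0 u fun v => ?_
      rw [← hu v, bil_base_k]
      rfl
    rcases propA h2 hN (fun c => sym_base hG ![l, l0, l2] c) (line_base hL _) hab
      (jl_base hJ hl2) (nd_pencil _ (fun c => sym_base hG ![l, l0, l2] c) hN0) with h | ⟨h, h'⟩
    · exact absurd (contRat_base hl2 h) hno
    · refine ⟨fun v hv => h v fun c => ?_, fun u hau hbu => ?_⟩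
      · rw [bil_base_k, bil_base_k]
        exact ⟨Finset.sum_eq_zero fun e _ => by rw [(hv e).1, mul_zero],
          Finset.sum_eq_zero fun e _ => by rw [(hv e).2, mul_zero]⟩
      · have ha : ∀ c, bil (base ![l, l0, l2] G c) a u = 0 := by
          intro c
          rw [bil_base_k]
          exact Finset.sum_eq_zero fun e _ => by rw [hau e, mul_zero]
        have h3 := h' u (ha 0) (by rw [bil_base_k]; exact hbu) (by
          unfold gam
          rw [cst_self, cst_self, ha 1, ha 2]
          ring)
        rw [bil_base_k] at h3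
        exact h3
  -- the form `l0` is not zero
  have hl0' : l0 ≠ 0 := by
    intro h0
    rw [LinearIndependent.pair_iff] at hab
    have h1 := hl0 a fun v => by
      rw [h0]
      exact Finset.sum_eq_zero fun c _ => by rw [Pi.zero_apply, zero_mul]
    have := hab 1 0 (by rw [h1]; simp)
    exact one_ne_zero this.1
  have hex : ∀ f : Fin 3 → k, ∃ l : Fin 3 → k, LinearIndependent k ![l, l0] ∧
      ∑ c, l c * f c = 0 := by
    intro f
    by_contra hcon
    push Not at hcon
    obtain ⟨φ, hφ⟩ : ∃ φ : (Fin 3 → k) →ₗ[k] k, ∀ l, φ l = ∑ c, l c * f c :=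
      ⟨(LinearMap.lsum k (fun _ : Fin 3 => k) k) fun c => LinearMap.mulRight k (f c), fun l => by
        rw [LinearMap.lsum_apply, LinearMap.sum_apply]
        rfl⟩
    have h1 : LinearMap.ker φ ≤ Submodule.span k {l0} := by
      intro l hl
      rw [LinearMap.mem_ker, hφ] at hl
      by_contra hnm
      refine hcon l ?_ hl
      rw [LinearIndependent.pair_iff]
      intro s t hst
      have hs : s = 0 := by
        by_contra hs
        apply hnm
        rw [Submodule.mem_span_singleton]
        refine ⟨-(s⁻¹ * t), ?_⟩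
        have h3 : s • l = -(t • l0) := eq_neg_of_add_eq_zero_left hst
        have h4 : l = s⁻¹ • (s • l) := by rw [smul_smul, inv_mul_cancel₀ hs, one_smul]
        rw [h4, h3, smul_neg, smul_smul, neg_smul]
      rw [hs, zero_smul, zero_add] at hst
      exact ⟨hs, (smul_eq_zero.1 hst).resolve_right hl0'⟩
    have h3 := Submodule.finrank_mono h1
    have h4 := LinearMap.finrank_range_add_finrank_ker φ
    have h5 : Module.finrank k (LinearMap.range φ) ≤ 1 := by
      have := Submodule.finrank_le (LinearMap.range φ)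
      rwa [Module.finrank_self] at this
    rw [Module.finrank_fin_fun] at h4
    have h6 := finrank_span_singleton (K := k) hl0'
    omega
  have hP : ∀ u : Fin N → k, (∀ c, bil (G c) a u = 0) → ∀ lam : Fin 3 → k,
      ∑ c, lam c * bil (G c) b u = 0 → ∑ c, lam c * bil (G c) u u = 0 := by
    intro u hau lam hlam
    by_cases hi : LinearIndependent k ![lam, l0]
    · exact (key lam hi).2 u hau hlam
    · obtain ⟨l, hl, hlf⟩ := hex fun c => bil (G c) b u
      have hi2 : LinearIndependent k ![l + lam, l0] := by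
        rw [LinearIndependent.pair_iff] at hi hl ⊢
        push Not at hi
        obtain ⟨x, y, hxy, hne⟩ := hi
        have hx : x ≠ 0 := by
          intro hx
          rw [hx, zero_smul, zero_add] at hxy
          exact hne hx ((smul_eq_zero.1 hxy).resolve_right hl0')
        have hlam' : lam = (-(x⁻¹ * y)) • l0 := by
          have h3 : x • lam = -(y • l0) := eq_neg_of_add_eq_zero_left hxy
          have h4 : lam = x⁻¹ • (x • lam) := by rw [smul_smul, inv_mul_cancel₀ hx, one_smul]
          rw [h4, h3, smul_neg, smul_smul, neg_smul]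
        intro s t hst
        have h5 := hl s (s * (-(x⁻¹ * y)) + t) (by
          rw [← hst, hlam', smul_add, smul_smul, add_smul]
          abel)
        refine ⟨h5.1, ?_⟩
        have h6 := h5.2
        rw [h5.1, zero_mul, zero_add] at h6
        exact h6
      have e1 := (key l hl).2 u hau hlf
      have e2 := (key (l + lam) hi2).2 u hau (by
        have : ∑ c, (l + lam) c * bil (G c) b u = ∑ c, l c * bil (G c) b u +
            ∑ c, lam c * bil (G c) b u := by
          rw [← Finset.sum_add_distrib]
          exact Finset.sum_congr rfl fun c _ => by rw [Pi.add_apply]; ring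
        rw [this, hlf, hlam, add_zero])
      have e3 : ∑ c, (l + lam) c * bil (G c) u u = ∑ c, l c * bil (G c) u u +
          ∑ c, lam c * bil (G c) u u := by
        rw [← Finset.sum_add_distrib]
        exact Finset.sum_congr rfl fun c _ => by rw [Pi.add_apply]; ring
      rw [e3, e1, zero_add] at e2
      exact e2
  obtain ⟨l, hl, -⟩ := hex 0
  exact hno (plane h2 hN hG hL hab hP (key l hl).1)

end Pool.Agent.Helper11.QQ
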