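import Mathlib

/-!
# QQ-3: a quadratic form which vanishes on all isotropic vectors of another one

PROOF. Scale `p'` such that `B p p' = 1`. For `w` with `B p w = 0 = B p' w` and `s : E` the vector `u = -(s² * B w w) • p + 2 • p' + (2 * s) • w` is isotropic, so `0 = Γ u u = s⁴ (B w w)² Γ p p - 4 s³ (B w w) Γ p w
+ s² (4 Γ w w - 4 (B w w) Γ p p') + 8 s Γ p' w + 4 Γ p' p'` for all `s`; `E` is infinite, so all coefficients vanish (as `coeffs_zero` in `Pool/Agent/Helper66/QL/LineEx.lean`): `Γ p' p' = 0`, `Γ p' w = 0`, `Γ w w = (B w w) Γ p p'`,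
`(B w w) Γ p w = 0`, `(B w w)² Γ p p = 0`. With `w = w0`: `Γ p p = 0`, `Γ p w0 = 0`. `Γ p w = 0` for all such `w`: clear if `B w w ≠ 0`; otherwise `B (w + w0) (w + w0) + B (w - w0) (w - w0) = 2 B w0 w0 ≠ 0`, so one of
`w + w0`, `w - w0` has `B ≠ 0` and `Γ p (w ± w0) = 0`. Put `c = Γ p p'`. Every vector is `α • p + β • p' + w` with `α = B p' v`, `β = B p v`, `w = v - α • p - β • p'` orthogonal to `p`, `p'`; `B v v = 2 α β + B w w`, `Γ v v = 2 α β c + c B w w`.
-/

set_option autoImplicit false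

namespace Pool.Agent.Helper11.QQ

private theorem five {E : Type*} [Field E] [Infinite E] {a b c d e : E}
    (h : ∀ s : E, a * s ^ 4 + b * s ^ 3 + c * s ^ 2 + d * s + e = 0) :
    a = 0 ∧ b = 0 ∧ c = 0 ∧ d = 0 ∧ e = 0 := by
  have hP : (Polynomial.C a * Polynomial.X ^ 4 + Polynomial.C b * Polynomial.X ^ 3
      + Polynomial.C c * Polynomial.X ^ 2 + Polynomial.C d * Polynomial.X
      + Polynomial.C e : Polynomial E) = 0 := by
    refine Polynomial.funext fun s => ?_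
    simpa using h s
  refine ⟨?_, ?_, ?_, ?_, ?_⟩
  · simpa [Polynomial.coeff_X, Polynomial.coeff_C] using congrArg (fun P => Polynomial.coeff P 4) hP
  · simpa [Polynomial.coeff_X, Polynomial.coeff_C] using congrArg (fun P => Polynomial.coeff P 3) hP
  · simpa [Polynomial.coeff_X, Polynomial.coeff_C] using congrArg (fun P => Polynomial.coeff P 2) hP
  · simpa [Polynomial.coeff_X, Polynomial.coeff_C] using congrArg (fun P => Polynomial.coeff P 1) hP
  · simpa [Polynomial.coeff_X, Polynomial.coeff_C] using congrArg (fun P => Polynomial.coeff P 0) hP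

private theorem orth {E U : Type*} [Field E] [Infinite E] (h2 : (2 : E) ≠ 0) [AddCommGroup U]
    [Module E U] (B Γ : U →ₗ[E] U →ₗ[E] E) (hB : ∀ x y, B x y = B y x)
    (hΓ : ∀ x y, Γ x y = Γ y x) (p p' : U) (hp : B p p = 0) (hp' : B p' p' = 0)
    (hpp : B p p' = 1) (hiso : ∀ u, B u u = 0 → Γ u u = 0) (w : U) (hw : B p w = 0)
    (hw' : B p' w = 0) :
    Γ p' p' = 0 ∧ Γ p' w = 0 ∧ Γ w w = B w w * Γ p p' ∧ B w w * Γ p w = 0 ∧
      B w w ^ 2 * Γ p p = 0 := by
  have key : ∀ s : E, (B w w ^ 2 * Γ p p) * s ^ 4 + (-(4 * (B w w * Γ p w))) * s ^ 3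
      + (4 * Γ w w - 4 * (B w w * Γ p p')) * s ^ 2 + (8 * Γ p' w) * s + 4 * Γ p' p' = 0 := by
    intro s
    have hu := hiso (-(s ^ 2 * B w w) • p + (2 : E) • p' + (2 * s) • w) (by
      simp only [map_add, map_smul, LinearMap.add_apply, LinearMap.smul_apply, smul_eq_mul,
        hp, hp', hpp, hB p' p, hB w p, hB w p', hw, hw']
      ring)
    simp only [map_add, map_smul, LinearMap.add_apply, LinearMap.smul_apply, smul_eq_mul,
      hΓ p' p, hΓ w p, hΓ w p'] at hu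
    linear_combination hu
  obtain ⟨h4, h3, h2', h1, h0⟩ := five key
  have h4' : (4 : E) ≠ 0 := by
    have : (4 : E) = 2 * 2 := by norm_num
    rw [this]; exact mul_ne_zero h2 h2
  have h8' : (8 : E) ≠ 0 := by
    have : (8 : E) = 2 * 4 := by norm_num
    rw [this]; exact mul_ne_zero h2 h4'
  refine ⟨?_, ?_, ?_, ?_, h4⟩
  · exact (mul_eq_zero.1 h0).resolve_left h4'
  · exact (mul_eq_zero.1 h1).resolve_left h8'
  · have : (4 : E) * (Γ w w - B w w * Γ p p') = 0 := by linear_combination h2'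
    exact sub_eq_zero.1 ((mul_eq_zero.1 this).resolve_left h4')
  · have : (4 : E) * (B w w * Γ p w) = 0 := by linear_combination -h3
    exact (mul_eq_zero.1 this).resolve_left h4'

private theorem quad1 {E U : Type*} [Field E] [Infinite E] (h2 : (2 : E) ≠ 0) [AddCommGroup U]
    [Module E U] (B Γ : U →ₗ[E] U →ₗ[E] E) (hB : ∀ x y, B x y = B y x)
    (hΓ : ∀ x y, Γ x y = Γ y x) (p p' w0 : U) (hp : B p p = 0) (hp' : B p' p' = 0)
    (hpp : B p p' = 1) (h0 : B p w0 = 0) (h0' : B p' w0 = 0) (hw : B w0 w0 ≠ 0)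
    (hiso : ∀ u, B u u = 0 → Γ u u = 0) :
    ∀ v, Γ v v = Γ p p' * B v v := by
  have O := orth h2 B Γ hB hΓ p p' hp hp' hpp hiso
  obtain ⟨hgp', _, _, hg1, hg2⟩ := O w0 h0 h0'
  have hgp : Γ p p = 0 := (mul_eq_zero.1 hg2).resolve_left (pow_ne_zero 2 hw)
  have hgw0 : Γ p w0 = 0 := (mul_eq_zero.1 hg1).resolve_left hw
  have hgw : ∀ w, B p w = 0 → B p' w = 0 → Γ p w = 0 := by
    intro w a1 a2
    have c1 := (O (w + w0) (by rw [map_add, a1, h0, add_zero])
      (by rw [map_add, a2, h0', add_zero])).2.2.2.1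
    have c2 := (O (w - w0) (by rw [map_sub, a1, h0, sub_zero])
      (by rw [map_sub, a2, h0', sub_zero])).2.2.2.1
    have c3 := (O w a1 a2).2.2.2.1
    simp only [map_add, map_sub, LinearMap.add_apply, LinearMap.sub_apply, hgw0, hB w0 w,
      add_zero, sub_zero] at c1 c2
    have : (2 * B w0 w0) * Γ p w = 0 := by linear_combination c1 + c2 - 2 * c3
    exact (mul_eq_zero.1 this).resolve_left (mul_ne_zero h2 hw)
  intro v
  set α : E := B p' v with hα
  set β : E := B p v with hβ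
  have w1 : B p (v - α • p - β • p') = 0 := by
    simp only [map_sub, map_smul, smul_eq_mul, hp, hpp, ← hβ]; ring
  have w2 : B p' (v - α • p - β • p') = 0 := by
    simp only [map_sub, map_smul, smul_eq_mul, hp', hB p' p, hpp, ← hα]; ring
  obtain ⟨_, e1, e2, _, _⟩ := O _ w1 w2
  have e3 := hgw _ w1 w2
  simp only [map_sub, map_smul, LinearMap.sub_apply, LinearMap.smul_apply, smul_eq_mul, hp, hp',
    hpp, hB p' p, hB v p, hB v p', hgp, hgp', hΓ p' p, hΓ v p, hΓ v p', ← hα, ← hβ] at e1 e2 e3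
  linear_combination e2 + 2 * α * e3 + 2 * β * e1

theorem quad {E U : Type*} [Field E] [Infinite E] (h2 : (2 : E) ≠ 0) [AddCommGroup U] [Module E U]
    (B Γ : U →ₗ[E] U →ₗ[E] E) (hB : ∀ x y, B x y = B y x) (hΓ : ∀ x y, Γ x y = Γ y x)
    (p p' w0 : U) (hp : B p p = 0) (hp' : B p' p' = 0) (hpp : B p p' ≠ 0) (h0 : B p w0 = 0)
    (h0' : B p' w0 = 0) (hw : B w0 w0 ≠ 0) (hiso : ∀ u, B u u = 0 → Γ u u = 0) :
    ∃ c, ∀ v, Γ v v = c * B v v := by
  refine ⟨_, quad1 h2 B Γ hB hΓ p ((B p p')⁻¹ • p') w0 hp ?_ ?_ h0 ?_ hw hiso⟩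
  · simp [hp']
  · simp [hpp]
  · simp [h0']

end Pool.Agent.Helper11.QQ
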