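import Pool.Agent.Helper11.QQ.Defs
import Pool.Agent.Helper41.Eggert.Zero

/-!
# QQ-2: a section of the quadric bundle (Tsen)

Model: `Pool/Agent/Helper72/QT/Tsen.lean`. PROOF. Look for `σ l = c (0, l) + c (1, l) X + c (2, l) X²`, unknowns `c : Fin 3 × Fin N → k`, `3 N ≥ 21` unknowns (`finProdFinEquiv`). Equations: `c (e, i) = 0`, `c (e, j) = 0` (`e : Fin 3`): `6`;
`bil (H 0) a σ + X bil (H 1) a σ` has degree `≤ 3`: `4` coefficients, the same for `b`: `4`; `bil (H 0) σ σ + X bil (H 1) σ σ` has degree `≤ 5`: `6` coefficients. Together `20` polynomials in the unknowns which vanish at `0`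
(evaluate the coefficients of the generic section over `(MvPolynomial (Fin (3 * N)) k)[X]`, as in the model file, with `bil_map`). `Helper41.Eggert.exists_ne_zero_common_zero` gives a common zero `c ≠ 0`.
-/

set_option autoImplicit false

namespace Pool.Agent.Helper11.QQ

open Polynomial

variable {k : Type*} [Field k] {N : ℕ}

/-- the section with coefficients `c` -/
private noncomputable def sec {A : Type*} [CommRing A] (c : Fin (3 * N) → A) : Fin N → A[X] :=
  fun l => ∑ e : Fin 3, C (c (finProdFinEquiv (e, l))) * X ^ (e : ℕ)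

private theorem sec_coeff {A : Type*} [CommRing A] (c : Fin (3 * N) → A) (l : Fin N) (e : Fin 3) :
    (sec c l).coeff e = c (finProdFinEquiv (e, l)) := by
  unfold sec
  rw [finsetSum_coeff, Finset.sum_eq_single e]
  · rw [coeff_C_mul, coeff_X_pow, if_pos rfl, mul_one]
  · intro e' _ he
    rw [coeff_C_mul, coeff_X_pow, if_neg (fun h => he (Fin.ext h.symm)), mul_zero]
  · intro h
    exact absurd (Finset.mem_univ _) h

private theorem sec_map {A B : Type*} [CommRing A] [CommRing B] (f : A →+* B)
    (c : Fin (3 * N) → A) (l : Fin N) : (sec c l).map f = sec (fun l => f (c l)) l := by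
  unfold sec
  rw [Polynomial.map_sum]
  refine Finset.sum_congr rfl fun e _ => ?_
  rw [Polynomial.map_mul, Polynomial.map_C, Polynomial.map_pow, Polynomial.map_X]

private theorem sec_deg {A : Type*} [CommRing A] (c : Fin (3 * N) → A) (l : Fin N) :
    (sec c l).natDegree ≤ 2 := by
  unfold sec
  refine natDegree_sum_le_of_forall_le _ _ fun e _ => ?_
  refine (natDegree_C_mul_X_pow_le _ _).trans ?_
  have := e.2
  omega

private theorem sec_zero {A : Type*} [CommRing A] : sec (0 : Fin (3 * N) → A) = 0 := by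
  funext l
  unfold sec
  simp

private theorem bil_deg (G : Mt k N) (x y : Fin N → k[X]) (m n : ℕ)
    (hx : ∀ i, (x i).natDegree ≤ m) (hy : ∀ i, (y i).natDegree ≤ n) :
    (bil G x y).natDegree ≤ m + n := by
  unfold bil
  refine natDegree_sum_le_of_forall_le _ _ fun i _ => natDegree_sum_le_of_forall_le _ _ fun j _ => ?_
  refine natDegree_mul_le_of_le ?_ (hy j)
  have h1 : (algebraMap k k[X] (G i j) * x i).natDegree ≤ 0 + m := by
    refine natDegree_mul_le_of_le ?_ (hx i)
    rw [Polynomial.algebraMap_apply, natDegree_C]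
  rw [zero_add] at h1
  exact h1

private theorem bt_deg (H : Fin 3 → Mt k N) (x y : Fin N → k[X]) (m n : ℕ)
    (hx : ∀ i, (x i).natDegree ≤ m) (hy : ∀ i, (y i).natDegree ≤ n) :
    (bt H X x y).natDegree ≤ m + n + 1 := by
  unfold bt
  refine natDegree_add_le_of_degree_le ((bil_deg (H 0) x y m n hx hy).trans (Nat.le_succ _)) ?_
  have h1 : ((X : k[X]) * bil (H 1) x y).natDegree ≤ 1 + (m + n) :=
    natDegree_mul_le_of_le natDegree_X_le (bil_deg (H 1) x y m n hx hy)
  omega

private theorem cst_deg (a : Fin N → k) (i : Fin N) : (cst k[X] a i).natDegree ≤ 0 := by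
  unfold cst
  rw [Polynomial.algebraMap_apply, natDegree_C]

private theorem eq_zero_of_coeff {A : Type*} [CommRing A] {F : A[X]} {n : ℕ} (hF : F.natDegree ≤ n)
    (h : ∀ i < n + 1, F.coeff i = 0) : F = 0 := by
  ext i
  rw [coeff_zero]
  by_cases hi : i < n + 1
  · exact h i hi
  · exact coeff_eq_zero_of_natDegree_lt (by omega)

private theorem evalF {n : ℕ} (c : Fin n → k) (F : (MvPolynomial (Fin n) k)[X]) (G : k[X])
    (h : Polynomial.mapAlgHom (MvPolynomial.aeval c : MvPolynomial (Fin n) k →ₐ[k] k) F = G)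
    (i : ℕ) : MvPolynomial.eval c (F.coeff i) = G.coeff i := by
  rw [← h, Polynomial.coe_mapAlgHom, Polynomial.coeff_map]
  rw [← MvPolynomial.coe_aeval_eq_eval]

private theorem bt_zero_right' {R : Type*} [CommRing R] [Algebra k R] (H : Fin 3 → Mt k N) (t : R)
    (x : Fin N → R) : bt H t x 0 = 0 := by
  unfold bt
  rw [bil_zero_right, bil_zero_right]
  ring

theorem tsen [IsAlgClosed k] (H : Fin 3 → Mt k N) (hN : 7 ≤ N) (a b : Fin N → k) (i j : Fin N) :
    ∃ σ : Fin N → k[X], σ ≠ 0 ∧ σ i = 0 ∧ σ j = 0 ∧ bt H X (cst k[X] a) σ = 0 ∧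
      bt H X (cst k[X] b) σ = 0 ∧ bt H X σ σ = 0 := by
  classical
  obtain ⟨sA, hsA⟩ : ∃ sA : Fin N → (MvPolynomial (Fin (3 * N)) k)[X],
      sA = sec MvPolynomial.X := ⟨_, rfl⟩
  have hgs : ∀ (c : Fin (3 * N) → k) (l : Fin N),
      Polynomial.mapAlgHom (MvPolynomial.aeval c : _ →ₐ[k] k) (sA l) = sec c l := by
    intro c l
    rw [hsA, Polynomial.coe_mapAlgHom, sec_map]
    congr 1
    funext l
    exact MvPolynomial.aeval_X c l
  have hgX : ∀ c : Fin (3 * N) → k,
      Polynomial.mapAlgHom (MvPolynomial.aeval c : MvPolynomial (Fin (3 * N)) k →ₐ[k] k) X = X := by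
    intro c
    rw [Polynomial.coe_mapAlgHom, Polynomial.map_X]
  have hF0 : ∀ (c : Fin (3 * N) → k) (l : Fin N) (e : ℕ),
      MvPolynomial.eval c ((sA l).coeff e) = (sec c l).coeff e := by
    intro c l e
    exact evalF c _ _ (hgs c l) e
  have hF1 : ∀ (c : Fin (3 * N) → k) (a : Fin N → k) (e : ℕ),
      MvPolynomial.eval c ((bt H X (cst (MvPolynomial (Fin (3 * N)) k)[X] a) sA).coeff e) =
        (bt H X (cst k[X] a) (sec c)).coeff e := by
    intro c a e
    refine evalF c _ _ ?_ e
    have h1 := bt_map H (Polynomial.mapAlgHom (MvPolynomial.aeval c :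
      MvPolynomial (Fin (3 * N)) k →ₐ[k] k)) X (cst (MvPolynomial (Fin (3 * N)) k)[X] a) sA
    have h3 := funext (hgs c)
    rw [cst_map, hgX] at h1
    rw [← h1, ← h3]
  have hF2 : ∀ (c : Fin (3 * N) → k) (e : ℕ),
      MvPolynomial.eval c ((bt H X sA sA).coeff e) = (bt H X (sec c) (sec c)).coeff e := by
    intro c e
    refine evalF c _ _ ?_ e
    have h1 := bt_map H (Polynomial.mapAlgHom (MvPolynomial.aeval c :
      MvPolynomial (Fin (3 * N)) k →ₐ[k] k)) X sA sA
    have h3 := funext (hgs c)
    rw [hgX] at h1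
    rw [← h1, ← h3]
  obtain ⟨c, hc0, hc⟩ := Helper41.Eggert.exists_ne_zero_common_zero
    ((((Finset.range 3).image (sA i).coeff ∪ (Finset.range 3).image (sA j).coeff) ∪
      ((Finset.range 4).image (bt H X (cst (MvPolynomial (Fin (3 * N)) k)[X] a) sA).coeff ∪
      (Finset.range 4).image (bt H X (cst (MvPolynomial (Fin (3 * N)) k)[X] b) sA).coeff)) ∪
      (Finset.range 6).image (bt H X sA sA).coeff) (by
      have h1 : ((Finset.range 3).image (sA i).coeff).card ≤ 3 :=
        Finset.card_image_le.trans (by rw [Finset.card_range])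
      have h2 : ((Finset.range 3).image (sA j).coeff).card ≤ 3 :=
        Finset.card_image_le.trans (by rw [Finset.card_range])
      have h3 : ((Finset.range 4).image
          (bt H X (cst (MvPolynomial (Fin (3 * N)) k)[X] a) sA).coeff).card ≤ 4 :=
        Finset.card_image_le.trans (by rw [Finset.card_range])
      have h4 : ((Finset.range 4).image
          (bt H X (cst (MvPolynomial (Fin (3 * N)) k)[X] b) sA).coeff).card ≤ 4 :=
        Finset.card_image_le.trans (by rw [Finset.card_range])
      have h5 : ((Finset.range 6).image (bt H X sA sA).coeff).card ≤ 6 :=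
        Finset.card_image_le.trans (by rw [Finset.card_range])
      refine lt_of_le_of_lt (Finset.card_union_le _ _) ?_
      have h6 := Finset.card_union_le
        ((Finset.range 3).image (sA i).coeff ∪ (Finset.range 3).image (sA j).coeff)
        ((Finset.range 4).image (bt H X (cst (MvPolynomial (Fin (3 * N)) k)[X] a) sA).coeff ∪
          (Finset.range 4).image (bt H X (cst (MvPolynomial (Fin (3 * N)) k)[X] b) sA).coeff)
      have h7 := Finset.card_union_le ((Finset.range 3).image (sA i).coeff)
        ((Finset.range 3).image (sA j).coeff)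
      have h8 := Finset.card_union_le
        ((Finset.range 4).image (bt H X (cst (MvPolynomial (Fin (3 * N)) k)[X] a) sA).coeff)
        ((Finset.range 4).image (bt H X (cst (MvPolynomial (Fin (3 * N)) k)[X] b) sA).coeff)
      omega) (by
      intro f hf
      rcases Finset.mem_union.1 hf with h | h
      · rcases Finset.mem_union.1 h with h | h
        · rcases Finset.mem_union.1 h with h | h
          · obtain ⟨e, _, rfl⟩ := Finset.mem_image.1 h
            rw [hF0, sec_zero, Pi.zero_apply, coeff_zero]
          · obtain ⟨e, _, rfl⟩ := Finset.mem_image.1 h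
            rw [hF0, sec_zero, Pi.zero_apply, coeff_zero]
        · rcases Finset.mem_union.1 h with h | h
          · obtain ⟨e, _, rfl⟩ := Finset.mem_image.1 h
            rw [hF1, sec_zero, bt_zero_right', coeff_zero]
          · obtain ⟨e, _, rfl⟩ := Finset.mem_image.1 h
            rw [hF1, sec_zero, bt_zero_right', coeff_zero]
      · obtain ⟨e, _, rfl⟩ := Finset.mem_image.1 h
        rw [hF2, sec_zero, bt_zero_right', coeff_zero])
  have hi : sec c i = 0 := by
    refine eq_zero_of_coeff (sec_deg c i) fun e he => ?_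
    rw [← hF0]
    exact hc _ (Finset.mem_union_left _ (Finset.mem_union_left _ (Finset.mem_union_left _
      (Finset.mem_image_of_mem _ (Finset.mem_range.2 he)))))
  have hj : sec c j = 0 := by
    refine eq_zero_of_coeff (sec_deg c j) fun e he => ?_
    rw [← hF0]
    exact hc _ (Finset.mem_union_left _ (Finset.mem_union_left _ (Finset.mem_union_right _
      (Finset.mem_image_of_mem _ (Finset.mem_range.2 he)))))
  refine ⟨sec c, ?_, hi, hj, ?_, ?_, ?_⟩
  · intro h
    apply hc0
    funext l
    obtain ⟨⟨e, l⟩, rfl⟩ := finProdFinEquiv.surjective l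
    rw [← sec_coeff c l e, h]
    simp
  · refine eq_zero_of_coeff (n := 3)
      ((bt_deg H _ _ 0 2 (cst_deg a) (sec_deg c)).trans (by omega)) fun e he => ?_
    rw [← hF1]
    exact hc _ (Finset.mem_union_left _ (Finset.mem_union_right _ (Finset.mem_union_left _
      (Finset.mem_image_of_mem _ (Finset.mem_range.2 he)))))
  · refine eq_zero_of_coeff (n := 3)
      ((bt_deg H _ _ 0 2 (cst_deg b) (sec_deg c)).trans (by omega)) fun e he => ?_
    rw [← hF1]
    exact hc _ (Finset.mem_union_left _ (Finset.mem_union_right _ (Finset.mem_union_right _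
      (Finset.mem_image_of_mem _ (Finset.mem_range.2 he)))))
  · refine eq_zero_of_coeff (n := 5)
      ((bt_deg H _ _ 2 2 (sec_deg c) (sec_deg c)).trans (by omega)) fun e he => ?_
    rw [← hF2]
    exact hc _ (Finset.mem_union_right _ (Finset.mem_image_of_mem _ (Finset.mem_range.2 he)))

end Pool.Agent.Helper11.QQ
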