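import Pool.Agent.Helper11.QQ.Spec
import Pool.Agent.Helper11.QQ.Quad
import Pool.Agent.Helper11.QQ.Hyp
import Pool.Agent.Helper11.QQ.Gam
import Pool.Agent.Helper11.QQ.Tsen

/-!
# QQ-9: a pencil with a nondegenerate member gives a surface or a proportionality

Either the surface of `Surf.lean` exists or the minor `gam` is proportional to the quadric of the
pencil on the orthogonal space of the line, which is specialised to `t = 0`.
-/

set_option autoImplicit false

namespace Pool.Agent.Helper11.QQ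

open Polynomial Pool.Agent.Helper72.QT

variable {k : Type*} [Field k] {N : ℕ}

/-- the form `bt H t` as a bilinear map -/
noncomputable def btL (H : Fin 3 → Mt k N) {E : Type*} [Field E] [Algebra k E] (t : E) :
    (Fin N → E) →ₗ[E] (Fin N → E) →ₗ[E] E :=
  LinearMap.mk₂ E (bt H t) (fun x y z => bt_add_left H t x y z)
    (fun c x y => by rw [bt_smul_left]; rfl) (fun x y z => bt_add_right H t x y z)
    (fun c x y => by rw [bt_smul_right]; rfl)

theorem btL_apply (H : Fin 3 → Mt k N) {E : Type*} [Field E] [Algebra k E] (t : E)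
    (x y : Fin N → E) : btL H t x y = bt H t x y := rfl

/-- the polarisation of twice `gam` -/
def gam2 (H : Fin 3 → Mt k N) (a b : Fin N → k) {R : Type*} [CommRing R] [Algebra k R]
    (u v : Fin N → R) : R :=
  bil (H 1) (cst R a) u * bil (H 2) (cst R b) v + bil (H 1) (cst R a) v * bil (H 2) (cst R b) u -
    (bil (H 1) (cst R b) u * bil (H 2) (cst R a) v + bil (H 1) (cst R b) v * bil (H 2) (cst R a) u)

theorem gam2_self (H : Fin 3 → Mt k N) (a b : Fin N → k) {R : Type*} [CommRing R] [Algebra k R]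
    (u : Fin N → R) : gam2 H a b u u = 2 * gam H a b u := by
  simp only [gam2, gam]
  ring

/-- `gam2` as a bilinear map -/
noncomputable def gamL (H : Fin 3 → Mt k N) (a b : Fin N → k) {E : Type*} [Field E]
    [Algebra k E] : (Fin N → E) →ₗ[E] (Fin N → E) →ₗ[E] E :=
  LinearMap.mk₂ E (gam2 H a b)
    (fun x y z => by simp only [gam2, bil_add_right]; ring)
    (fun c x y => by simp only [gam2, bil_smul_right, smul_eq_mul]; ring)
    (fun x y z => by simp only [gam2, bil_add_right]; ring)
    (fun c x y => by simp only [gam2, bil_smul_right, smul_eq_mul]; ring)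

theorem gamL_apply (H : Fin 3 → Mt k N) (a b : Fin N → k) {E : Type*} [Field E] [Algebra k E]
    (x y : Fin N → E) : gamL H a b x y = gam2 H a b x y := rfl

/-- the orthogonal space of the orthogonal space of two vectors -/
theorem orth {E : Type*} [Field E] (B : (Fin N → E) →ₗ[E] (Fin N → E) →ₗ[E] E)
    (hnd : ∀ u, (∀ v, B u v = 0) → u = 0) (a b p : Fin N → E)
    (h : ∀ w, B a w = 0 → B b w = 0 → B p w = 0) : ∃ α β : E, p = α • a + β • b := by
  have h1 : B p ∈ Submodule.span E (Set.range ![B a, B b]) := by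
    refine mem_span_of_iInf_ker_le_ker fun w hw => ?_
    rw [Submodule.mem_iInf] at hw
    have ha := hw 0
    have hb := hw 1
    rw [LinearMap.mem_ker] at ha hb ⊢
    exact h w ha hb
  rw [Matrix.range_cons, Matrix.range_cons, Matrix.range_empty, Set.union_empty,
    Set.singleton_union, Submodule.mem_span_pair] at h1
  obtain ⟨α, β, hαβ⟩ := h1
  refine ⟨α, β, ?_⟩
  rw [← sub_eq_zero]
  refine hnd _ fun v => ?_
  rw [map_sub, map_add, map_smul, map_smul, ← hαβ]
  simp

theorem exists_minor {a b : Fin N → k} (hab : LinearIndependent k ![a, b]) :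
    ∃ i j, a i * b j - a j * b i ≠ 0 := by
  by_contra hcon
  push Not at hcon
  rw [LinearIndependent.pair_iff] at hab
  have ha : a ≠ 0 := by
    intro ha
    have := hab 1 0 (by rw [ha]; simp)
    exact one_ne_zero this.1
  obtain ⟨r, hr⟩ := Function.ne_iff.1 ha
  have h := hab (b r) (-(a r)) (by
    funext m
    simp only [Pi.add_apply, Pi.smul_apply, smul_eq_mul, Pi.zero_apply]
    have := hcon r m
    linear_combination -this)
  exact hr (by simpa using h.2)

theorem propA [IsAlgClosed k] (h2 : (2 : k) ≠ 0) (hN : 7 ≤ N) {H : Fin 3 → Mt k N}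
    (hH : ∀ c, Sym (H c)) {a b : Fin N → k} (hL : Line H a b)
    (hab : LinearIndependent k ![a, b]) (hJ : JL H a b)
    (hnd : ∀ u : Fin N → RatFunc k, (∀ v, bt H RatFunc.X u v = 0) → u = 0) :
    ContRat3 H ∨ ((∀ v : Fin N → k, (∀ c, bil (H c) a v = 0 ∧ bil (H c) b v = 0) →
      ∃ α β : k, v = α • a + β • b) ∧
      ∀ u : Fin N → k, bil (H 0) a u = 0 → bil (H 0) b u = 0 → gam H a b u = 0 →
        bil (H 0) u u = 0) := by
  classical
  have : Infinite k := IsAlgClosed.instInfinite
  have : Infinite (RatFunc k) :=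
    Infinite.of_injective (algebraMap k (RatFunc k)) (algebraMap k (RatFunc k)).injective
  have h2R : (2 : RatFunc k) ≠ 0 := by
    have h : algebraMap k (RatFunc k) 2 ≠ 0 := by
      rw [Ne, map_eq_zero_iff _ (algebraMap k (RatFunc k)).injective]
      exact h2
    rwa [map_ofNat] at h
  obtain ⟨B, hBd⟩ : ∃ B, B = btL H (RatFunc.X : RatFunc k) := ⟨_, rfl⟩
  have hBa : ∀ x y, B x y = bt H RatFunc.X x y := fun x y => by rw [hBd, btL_apply]
  have hBs : ∀ x y, B x y = B y x := fun x y => by rw [hBa, hBa, bt_comm hH]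
  have hBnd : ∀ u, (∀ v, B u v = 0) → u = 0 := fun u hu => hnd u fun v => by rw [← hBa]; exact hu v
  obtain ⟨a', ha'⟩ : ∃ a', a' = cst (RatFunc k) a := ⟨_, rfl⟩
  obtain ⟨b', hb'⟩ : ∃ b', b' = cst (RatFunc k) b := ⟨_, rfl⟩
  have haa : B a' a' = 0 := by
    rw [hBa, ha', bt, hL.raa, hL.raa]
    ring
  have hab' : B a' b' = 0 := by
    rw [hBa, ha', hb', bt, hL.rab, hL.rab]
    ring
  have hbb : B b' b' = 0 := by
    rw [hBa, hb', bt, hL.rbb, hL.rbb]
    ring
  -- the section
  obtain ⟨i, j, hij⟩ := exists_minor hab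
  obtain ⟨σ, hσ0, hσi, hσj, hσa, hσb, hσσ⟩ := tsen H hN a b i j
  obtain ⟨ι, hιX, hι⟩ : ∃ ι : k[X] →ₐ[k] RatFunc k, ι X = RatFunc.X ∧
      ∀ p, ι p = algebraMap k[X] (RatFunc k) p :=
    ⟨IsScalarTower.toAlgHom k k[X] (RatFunc k), RatFunc.algebraMap_X, fun p => rfl⟩
  obtain ⟨p, hp⟩ : ∃ p : Fin N → RatFunc k, p = fun l => ι (σ l) := ⟨_, rfl⟩
  have hap : B a' p = 0 := by
    rw [hBa, ha', hp, ← hιX, ← cst_map ι, bt_map, hσa, map_zero]
  have hbp : B b' p = 0 := by
    rw [hBa, hb', hp, ← hιX, ← cst_map ι, bt_map, hσb, map_zero]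
  have hpp : B p p = 0 := by
    rw [hBa, hp, ← hιX, bt_map, hσσ, map_zero]
  have hpl : ∀ α β : RatFunc k, p ≠ α • a' + β • b' := by
    intro α β h
    have hi := congrFun h i
    have hj := congrFun h j
    rw [hp] at hi hj
    simp only [hσi, hσj, map_zero, Pi.add_apply, Pi.smul_apply, smul_eq_mul, ha', hb', cst]
      at hi hj
    have hm : algebraMap k (RatFunc k) (a i * b j - a j * b i) ≠ 0 := by
      rw [Ne, map_eq_zero_iff _ (algebraMap k (RatFunc k)).injective]
      exact hij
    rw [map_sub, map_mul, map_mul] at hm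
    have hα : α = 0 := by
      have : α * (algebraMap k (RatFunc k) (a i) * algebraMap k (RatFunc k) (b j) -
          algebraMap k (RatFunc k) (a j) * algebraMap k (RatFunc k) (b i)) = 0 := by
        linear_combination (-algebraMap k (RatFunc k) (b j)) * hi +
          (algebraMap k (RatFunc k) (b i)) * hj
      exact (mul_eq_zero.1 this).resolve_right hm
    have hβ : β = 0 := by
      have : β * (algebraMap k (RatFunc k) (a i) * algebraMap k (RatFunc k) (b j) -
          algebraMap k (RatFunc k) (a j) * algebraMap k (RatFunc k) (b i)) = 0 := by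
        linear_combination (algebraMap k (RatFunc k) (a j)) * hi -
          (algebraMap k (RatFunc k) (a i)) * hj
      exact (mul_eq_zero.1 this).resolve_right hm
    rw [hα, hβ, zero_smul, zero_smul, add_zero] at h
    apply hσ0
    funext l
    have hl := congrFun h l
    rw [hp] at hl
    simp only [Pi.zero_apply] at hl ⊢
    rw [hι] at hl
    exact (map_eq_zero_iff _ (RatFunc.algebraMap_injective k)).1 hl
  obtain ⟨p', w0, hap', hbp', hp'p', hpp', haw0, hbw0, hpw0, hp'w0, hw0⟩ :=
    hyp h2R hN B hBs hBnd a' b' p haa hab' hbb hap hbp hpp hpl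
  by_cases hiso : ∀ u, B a' u = 0 → B b' u = 0 → B u u = 0 → gam H a b u = 0
  · -- the degenerate case
    right
    obtain ⟨U, hU⟩ : ∃ U : Submodule (RatFunc k) (Fin N → RatFunc k),
        U = LinearMap.ker (B a') ⊓ LinearMap.ker (B b') := ⟨_, rfl⟩
    have hmem : ∀ w, w ∈ U ↔ B a' w = 0 ∧ B b' w = 0 := by
      intro w
      rw [hU, Submodule.mem_inf, LinearMap.mem_ker, LinearMap.mem_ker]
    obtain ⟨c, hc⟩ := quad h2R (B.domRestrict₁₂ U U)
      ((gamL H a b : (Fin N → RatFunc k) →ₗ[RatFunc k] (Fin N → RatFunc k) →ₗ[RatFunc k]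
        RatFunc k).domRestrict₁₂ U U)
      (fun x y => hBs x y)
      (fun x y => by
        show gam2 H a b _ _ = gam2 H a b _ _
        simp only [gam2]
        ring)
      ⟨p, (hmem p).2 ⟨hap, hbp⟩⟩ ⟨p', (hmem p').2 ⟨hap', hbp'⟩⟩ ⟨w0, (hmem w0).2 ⟨haw0, hbw0⟩⟩
      hpp hp'p' hpp' hpw0 hp'w0 hw0 (by
        rintro ⟨u, hu⟩ huu
        show gam2 H a b u u = 0
        have hu' := (hmem u).1 hu
        rw [gam2_self, hiso u hu'.1 hu'.2 huu, mul_zero])
    have hc' : ∀ w : Fin N → RatFunc k, bt H RatFunc.X (cst (RatFunc k) a) w = 0 →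
        bt H RatFunc.X (cst (RatFunc k) b) w = 0 →
        gam H a b w = (c / 2) * bt H RatFunc.X w w := by
      intro w haw hbw
      have h : gam2 H a b w w = c * B w w :=
        hc ⟨w, (hmem w).2 ⟨by rw [hBa, ha']; exact haw, by rw [hBa, hb']; exact hbw⟩⟩
      rw [gam2_self, hBa] at h
      have h3 : 2 * gam H a b w = 2 * ((c / 2) * bt H RatFunc.X w w) := by
        rw [h]
        field_simp
      exact mul_left_cancel₀ h2R h3
    obtain ⟨hc0, hspec⟩ := spec hJ (c / 2) hc' (gam_ne hJ)
    refine ⟨fun v hv => ?_, hspec⟩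
    -- vectors which are orthogonal to the line for the whole net
    obtain ⟨v', hv'⟩ : ∃ v', v' = cst (RatFunc k) v := ⟨_, rfl⟩
    have hav : ∀ e, bil (H e) (cst (RatFunc k) a) v' = 0 := fun e => by
      rw [hv', bil_cst, (hv e).1, map_zero]
    have hbv : ∀ e, bil (H e) (cst (RatFunc k) b) v' = 0 := fun e => by
      rw [hv', bil_cst, (hv e).2, map_zero]
    have hgw : ∀ w : Fin N → RatFunc k, gam H a b (w + v') = gam H a b w := by
      intro w
      simp only [gam, bil_add_right, hav, hbv, add_zero]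
    have hat : bt H RatFunc.X (cst (RatFunc k) a) v' = 0 := by
      rw [bt, hav, hav]
      ring
    have hbt : bt H RatFunc.X (cst (RatFunc k) b) v' = 0 := by
      rw [bt, hbv, hbv]
      ring
    have hvv : bt H RatFunc.X v' v' = 0 := by
      have h1 := hc' v' hat hbt
      have h3 : gam H a b v' = 0 := by
        simp only [gam, hav, hbv]
        ring
      rw [h3] at h1
      exact (mul_eq_zero.1 h1.symm).resolve_left hc0
    have hvw : ∀ w, B a' w = 0 → B b' w = 0 → B v' w = 0 := by
      intro w haw hbw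
      rw [hBa, ha'] at haw
      rw [hBa, hb'] at hbw
      have h1 := hc' (w + v') (by rw [bt_add_right, haw, hat, add_zero])
        (by rw [bt_add_right, hbw, hbt, add_zero])
      rw [hgw, hc' w haw hbw, bt_add_left, bt_add_right, bt_add_right, hvv,
        bt_comm hH _ w v'] at h1
      have h3 : (c / 2) * (2 * bt H RatFunc.X v' w) = 0 := by linear_combination -h1
      rw [hBa]
      exact (mul_eq_zero.1 ((mul_eq_zero.1 h3).resolve_left hc0)).resolve_left h2R
    obtain ⟨x, z, hxz⟩ := orth B hBnd a' b' v' hvw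
    obtain ⟨d, hd⟩ := exists_dual' ![a, b] hab
    have d00 : ∑ j, d 0 j * a j = 1 := hd 0 0
    have d01 : ∑ j, d 0 j * b j = 0 := hd 0 1
    have d10 : ∑ j, d 1 j * a j = 0 := hd 1 0
    have d11 : ∑ j, d 1 j * b j = 1 := hd 1 1
    have hvr : ∀ r : Fin 2, algebraMap k (RatFunc k) (∑ j, d r j * v j) =
        x * algebraMap k (RatFunc k) (∑ j, d r j * a j) +
          z * algebraMap k (RatFunc k) (∑ j, d r j * b j) := by
      intro r
      rw [map_sum, map_sum, map_sum, Finset.mul_sum, Finset.mul_sum, ← Finset.sum_add_distrib]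
      refine Finset.sum_congr rfl fun j _ => ?_
      have h := congrFun hxz j
      rw [hv', ha', hb'] at h
      simp only [Pi.add_apply, Pi.smul_apply, smul_eq_mul, cst] at h
      rw [map_mul, map_mul, map_mul, h]
      ring
    have hx := hvr 0
    have hz := hvr 1
    rw [d00, d01, map_one, map_zero, mul_one, mul_zero, add_zero] at hx
    rw [d10, d11, map_one, map_zero, mul_one, mul_zero, zero_add] at hz
    refine ⟨∑ j, d 0 j * v j, ∑ j, d 1 j * v j, ?_⟩
    funext l
    have h := congrFun hxz l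
    rw [hv', ha', hb', ← hx, ← hz] at h
    simp only [Pi.add_apply, Pi.smul_apply, smul_eq_mul, cst] at h
    rw [← map_mul, ← map_mul, ← map_add] at h
    exact (algebraMap k (RatFunc k)).injective h
  · left
    push Not at hiso
    obtain ⟨p1, hap1, hbp1, hp1p1, hg1⟩ := hiso
    have hp1l : ∀ α β : RatFunc k, p1 ≠ α • a' + β • b' := by
      intro α β h
      apply hg1
      rw [h, ha', hb']
      simp only [gam, bil_add_right, bil_smul_right, hL.raa, hL.rab, hL.rbb, hL.rba hH]
      ring
    obtain ⟨q1, v0, haq, hbq, hqq, hpq, hav0, hbv0, hpv0, hqv0, hv0⟩ :=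
      hyp h2R hN B hBs hBnd a' b' p1 haa hab' hbb hap1 hbp1 hp1p1 hp1l
    rw [hBa] at hap1 hbp1 hp1p1 haq hbq hpq hav0 hbv0 hpv0 hv0
    rw [ha'] at hap1 haq hav0
    rw [hb'] at hbp1 hbq hbv0
    exact surf h2 hH hL hab p1 v0 q1 hap1 hbp1 hp1p1 hav0 hbv0 hpv0 hv0 haq hbq hpq hg1

end Pool.Agent.Helper11.QQ
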