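import Pool.Agent.Helper11.QQ.Main
import Pool.Agent.Helper11.LS.Line
import Pool.Agent.Helper97.QF.Pol
import Pool.Agent.Helper72.QT.RatUni

/-!
# QQ-11: the theorem for quadratic forms as polynomials
-/

set_option autoImplicit false

namespace Pool.Agent.Helper11.QQ

open MvPolynomial Pool.Agent.Helper72.QT

universe u

variable {k : Type u} [Field k] {N : ℕ}

theorem transfer3 {G : Fin 3 → Mt k N} {K' : Type*} [Field K'] [Algebra k K'] (e : KK k ≃ₐ[k] K')
    (h : ContRat3 G) : ∃ y : Fin N → K', (∀ c, bil (G c) y y = 0) ∧ ∃ i, y i ≠ 0 ∧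
      IntermediateField.adjoin k (Set.range fun j => y j / y i) = ⊤ := by
  obtain ⟨y, hy, i, hi, hgen⟩ := h
  refine ⟨fun a => e (y a), fun c => ?_, i, ?_, ?_⟩
  · have := bil_map (G c) (e : KK k →ₐ[k] K') y y
    rw [hy, map_zero] at this
    exact this
  · exact (map_ne_zero e).2 hi
  · have h1 := congrArg (IntermediateField.map (e : KK k →ₐ[k] K')) hgen
    rw [IntermediateField.adjoin_map] at h1
    have h2 : (⇑(e : KK k →ₐ[k] K') '' Set.range fun j => y j / y i) =
        Set.range fun j => e (y j) / e (y i) := by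
      rw [← Set.range_comp]
      congr 1
      funext j
      exact map_div₀ e _ _
    rw [h2] at h1
    rw [h1]
    apply top_unique
    intro z _
    exact ⟨e.symm z, IntermediateField.mem_top, e.apply_symm_apply z⟩

/-- **Three quadrics.** Every smooth complete intersection of three quadrics in `ℙ^n`, `n ≥ 6`,
contains a rational surface (characteristic different from two). -/
theorem rat_222 [IsAlgClosed k] (h2 : (2 : k) ≠ 0) {n : ℕ} (hn : 6 ≤ n)
    (f : Fin 3 → MvPolynomial (Fin (n + 1)) k) (hf : ∀ l, (f l).IsHomogeneous 2)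
    (hS : ∀ x : Fin (n + 1) → k, x ≠ 0 → (∀ l, eval x (f l) = 0) →
      LinearIndependent k (fun l => fun i => eval x (pderiv i (f l)))) :
    ∃ y : Fin (n + 1) → FractionRing (MvPolynomial (Fin 2) k), (∀ l, aeval y (f l) = 0) ∧
      ∃ i, y i ≠ 0 ∧ IntermediateField.adjoin k (Set.range fun j => y j / y i) = ⊤ := by
  obtain ⟨G, hG⟩ : ∃ G : Fin 3 → Mt k (n + 1), G = fun l => Pool.Agent.Helper97.QF.polB (f l) :=
    ⟨_, rfl⟩
  have hsym : ∀ c, Sym (G c) := fun c => by
    rw [hG]
    exact Pool.Agent.Helper97.QF.symB_polB (f c)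
  have hae : ∀ (R : Type u) [CommRing R] [Algebra k R] (x : Fin (n + 1) → R) (c : Fin 3),
      aeval x (f c) = bil (G c) x x := by
    intro R _ _ x c
    rw [hG]
    exact Pool.Agent.Helper97.QF.aeval_polB h2 (f c) (hf c) x
  have hev : ∀ (x : Fin (n + 1) → k) (c : Fin 3), eval x (f c) = bil (G c) x x := by
    intro x c
    rw [← hae k x c]
    exact (congrFun (aeval_eq_eval x) _).symm
  have hsmo : Smo3 G := by
    intro x hx hxG μ hμ
    have h := hS x hx fun l => by rw [hev, hxG]
    rw [Fintype.linearIndependent_iff] at h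
    funext l
    refine h μ ?_ l
    funext i
    rw [Finset.sum_apply]
    simp only [Pi.smul_apply, smul_eq_mul, Pi.zero_apply]
    have h3 : ∀ c, eval x (pderiv i (f c)) = 2 * bil (G c) x (Pi.single i 1) := by
      intro c
      rw [hG]
      exact Pool.Agent.Helper97.QF.eval_pderiv_polB h2 (f c) (hf c) x i
    have h4 : ∑ c, μ c * eval x (pderiv i (f c)) =
        2 * ∑ c, μ c * bil (G c) x (Pi.single i 1) := by
      rw [Finset.mul_sum]
      exact Finset.sum_congr rfl fun c _ => by rw [h3]; ring
    rw [h4, hμ, mul_zero]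
  obtain ⟨a, b, hab, hl⟩ := Pool.Agent.Helper11.LS.line_222 k hn f hf
  have hL : Line G a b := by
    have hq : ∀ (c : Fin 3) (s t : k), s ^ 2 * bil (G c) a a + 2 * s * t * bil (G c) a b +
        t ^ 2 * bil (G c) b b = 0 := by
      intro c s t
      have e := hev (s • a + t • b) c
      rw [hl c s t] at e
      simp only [bil_add_left, bil_add_right, bil_smul_left, bil_smul_right,
        bil_comm (hsym c) b a] at e
      linear_combination -e
    refine ⟨fun c => ?_, fun c => ?_, fun c => ?_⟩
    · linear_combination hq c 1 0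
    · have h3 : 2 * bil (G c) a b = 0 := by
        linear_combination hq c 1 1 - hq c 1 0 - hq c 0 1
      exact (mul_eq_zero.1 h3).resolve_left h2
    · linear_combination hq c 0 1
  have hC := rat_line h2 (by omega) hsym hsmo hL hab
  obtain ⟨e⟩ := exists_equiv (k := k)
  obtain ⟨y, hy, hrest⟩ := transfer3 e hC
  exact ⟨y, fun l => by rw [hae, hy], hrest⟩

end Pool.Agent.Helper11.QQ
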