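import Pool.Agent.Helper11.QQ.Surf

/-!
# QQ-8: specialisation of the pencil parameter

If `gam = c * bt` on the orthogonal space of the line over `k(t)`, then every `u` over `k` in the
orthogonal space for `t = 0` with `gam u = 0` is isotropic for `bil (H 0)`, and `c ≠ 0`.
-/

set_option autoImplicit false

namespace Pool.Agent.Helper11.QQ

open Polynomial Pool.Agent.Helper72.QT

variable {k : Type*} [Field k] {N : ℕ}

/-- dual vectors for the two forms `bil (H 0) a`, `bil (H 0) b` -/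
theorem exists_gab {H : Fin 3 → Mt k N} {a b : Fin N → k} (hJ : JL H a b) :
    ∃ ga gb : Fin N → k, bil (H 0) a ga = 1 ∧ bil (H 0) b ga = 0 ∧ bil (H 0) a gb = 0 ∧
      bil (H 0) b gb = 1 := by
  have hsum : ∀ x v : Fin N → k, bil (H 0) x v = ∑ j, v j * bil (H 0) x (Pi.single j 1) := by
    intro x v
    have h := bil_eq_sum (R := k) (H 0) x v
    rw [cst_self] at h
    rw [h]
    refine Finset.sum_congr rfl fun j _ => ?_
    rw [mul_comm]
    rfl
  have hind : LinearIndependent k ![fun j => bil (H 0) a (Pi.single j 1),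
      fun j => bil (H 0) b (Pi.single j 1)] := by
    rw [LinearIndependent.pair_iff]
    intro x z hxz
    by_contra hcon
    have hne : x ≠ 0 ∨ z ≠ 0 := by
      by_contra h
      push Not at h
      exact hcon h
    have h := hJ x z hne ![1, 0, 0] (by
      intro v
      rw [Fin.sum_univ_three]
      simp only [Matrix.cons_val_zero, Matrix.cons_val_one, Matrix.cons_val, one_mul, zero_mul,
        add_zero]
      rw [bil_add_left, bil_smul_left, bil_smul_left, hsum a, hsum b, Finset.mul_sum,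
        Finset.mul_sum, ← Finset.sum_add_distrib]
      refine Finset.sum_eq_zero fun j _ => ?_
      have h1 := congrFun hxz j
      simp only [Pi.add_apply, Pi.smul_apply, smul_eq_mul, Pi.zero_apply] at h1
      linear_combination (v j) * h1)
    have h1 := congrFun h 0
    simp at h1
  obtain ⟨d, hd⟩ := exists_dual' _ hind
  have d00 : ∑ j, d 0 j * bil (H 0) a (Pi.single j 1) = 1 := hd 0 0
  have d01 : ∑ j, d 0 j * bil (H 0) b (Pi.single j 1) = 0 := hd 0 1
  have d10 : ∑ j, d 1 j * bil (H 0) a (Pi.single j 1) = 0 := hd 1 0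
  have d11 : ∑ j, d 1 j * bil (H 0) b (Pi.single j 1) = 1 := hd 1 1
  exact ⟨d 0, d 1, by rw [hsum, d00], by rw [hsum, d01], by rw [hsum, d10], by rw [hsum, d11]⟩

theorem spec {H : Fin 3 → Mt k N} {a b : Fin N → k} (hJ : JL H a b) (c : RatFunc k)
    (hc : ∀ w : Fin N → RatFunc k, bt H RatFunc.X (cst (RatFunc k) a) w = 0 →
      bt H RatFunc.X (cst (RatFunc k) b) w = 0 → gam H a b w = c * bt H RatFunc.X w w)
    (hgam : ∃ u : Fin N → k, bil (H 0) a u = 0 ∧ bil (H 0) b u = 0 ∧ gam H a b u ≠ 0) :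
    c ≠ 0 ∧ ∀ u : Fin N → k, bil (H 0) a u = 0 → bil (H 0) b u = 0 → gam H a b u = 0 →
      bil (H 0) u u = 0 := by
  obtain ⟨ga, gb, haa, hba, hab, hbb⟩ := exists_gab hJ
  -- evaluation at zero
  obtain ⟨e, heX, heC⟩ : ∃ e : k[X] →ₐ[k] k, e X = 0 ∧ ∀ p, e p = p.eval 0 :=
    ⟨Polynomial.aeval (0 : k), by rw [aeval_X], fun p => by rw [Polynomial.coe_aeval_eq_eval]⟩
  obtain ⟨ι, hιX, hι⟩ : ∃ ι : k[X] →ₐ[k] RatFunc k, ι X = RatFunc.X ∧
      ∀ p, ι p = algebraMap k[X] (RatFunc k) p :=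
    ⟨IsScalarTower.toAlgHom k k[X] (RatFunc k), RatFunc.algebraMap_X, fun p => rfl⟩
  have key : ∀ u : Fin N → k, bil (H 0) a u = 0 → bil (H 0) b u = 0 →
      c.denom.eval 0 * gam H a b u = c.num.eval 0 * bil (H 0) u u := by
    intro u hau hbu
    obtain ⟨maa, hmaa⟩ : ∃ m : k[X], m = bt H X (cst k[X] a) (cst k[X] ga) := ⟨_, rfl⟩
    obtain ⟨mab, hmab⟩ : ∃ m : k[X], m = bt H X (cst k[X] a) (cst k[X] gb) := ⟨_, rfl⟩
    obtain ⟨mba, hmba⟩ : ∃ m : k[X], m = bt H X (cst k[X] b) (cst k[X] ga) := ⟨_, rfl⟩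
    obtain ⟨mbb, hmbb⟩ : ∃ m : k[X], m = bt H X (cst k[X] b) (cst k[X] gb) := ⟨_, rfl⟩
    obtain ⟨ra, hra⟩ : ∃ m : k[X], m = bt H X (cst k[X] a) (cst k[X] u) := ⟨_, rfl⟩
    obtain ⟨rb, hrb⟩ : ∃ m : k[X], m = bt H X (cst k[X] b) (cst k[X] u) := ⟨_, rfl⟩
    obtain ⟨v, hv⟩ : ∃ v : Fin N → k[X], v = (maa * mbb - mab * mba) • cst k[X] u -
        (mbb * ra - mab * rb) • cst k[X] ga - (maa * rb - mba * ra) • cst k[X] gb := ⟨_, rfl⟩
    have hev : ∀ x y : Fin N → k, e (bt H X (cst k[X] x) (cst k[X] y)) = bil (H 0) x y := by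
      intro x y
      rw [← bt_map, cst_map, cst_map, heX, cst_self, cst_self, bt, zero_mul, add_zero]
    have hva : bt H X (cst k[X] a) v = 0 := by
      rw [hv, bt_sub_right, bt_sub_right, bt_smul_right, bt_smul_right, bt_smul_right, ← hmaa,
        ← hmab, ← hra]
      ring
    have hvb : bt H X (cst k[X] b) v = 0 := by
      rw [hv, bt_sub_right, bt_sub_right, bt_smul_right, bt_smul_right, bt_smul_right, ← hmba,
        ← hmbb, ← hrb]
      ring
    have hv0 : (fun i => e (v i)) = u := by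
      funext i
      rw [hv]
      simp only [Pi.sub_apply, Pi.smul_apply, smul_eq_mul, map_sub, map_mul]
      rw [hmaa, hmab, hmba, hmbb, hra, hrb]
      simp only [hev, haa, hab, hba, hbb, hau, hbu]
      have : e (cst k[X] u i) = u i := e.commutes _
      rw [this]
      ring
    have h1 := hc (fun i => ι (v i)) (by rw [← hιX, ← cst_map ι, bt_map, hva, map_zero])
      (by rw [← hιX, ← cst_map ι, bt_map, hvb, map_zero])
    rw [gam_map, ← hιX, bt_map, hι, hι] at h1
    have hd0 : algebraMap k[X] (RatFunc k) c.denom ≠ 0 := by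
      rw [Ne, map_eq_zero_iff _ (RatFunc.algebraMap_injective k)]
      exact c.denom_ne_zero
    have hcd : c * algebraMap k[X] (RatFunc k) c.denom = algebraMap k[X] (RatFunc k) c.num := by
      have h := RatFunc.num_div_denom c
      rw [div_eq_iff hd0] at h
      exact h.symm
    have h2 : c.denom * gam H a b v = c.num * bt H X v v := by
      apply RatFunc.algebraMap_injective k
      rw [map_mul, map_mul, h1, ← hcd]
      ring
    have h3 := congrArg e h2
    rw [map_mul, map_mul, ← gam_map, ← bt_map, hv0, heX, heC, heC, bt, zero_mul, add_zero] at h3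
    exact h3
  have hn0 : c.num.eval 0 ≠ 0 := by
    intro h0
    obtain ⟨u, hau, hbu, hgu⟩ := hgam
    have h1 := key u hau hbu
    rw [h0, zero_mul] at h1
    have h2 : c.denom.eval 0 = 0 := (mul_eq_zero.1 h1).resolve_right hgu
    obtain ⟨x, z, hxz⟩ := c.isCoprime_num_denom
    have h3 := congrArg (fun p => eval 0 p) hxz
    simp only [eval_add, eval_mul, h0, h2, mul_zero, add_zero, eval_one] at h3
    exact zero_ne_one h3
  refine ⟨?_, ?_⟩
  · rintro rfl
    apply hn0
    rw [RatFunc.num_zero, eval_zero]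
  · intro u hau hbu hgu
    have h1 := key u hau hbu
    rw [hgu, mul_zero] at h1
    exact (mul_eq_zero.1 h1.symm).resolve_left hn0

end Pool.Agent.Helper11.QQ
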