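import Pool.Agent.Helper11.QQ.Defs

/-!
# QQ-7: the surface

`p` is an isotropic vector of `bt H t` in the orthogonal space of the line with `gam p ≠ 0`, `w0`, `w1`
are in this space, `w0` orthogonal to `p` and nonisotropic, `w1` not orthogonal to `p`. With
`w = w0 + s w1` the vector `u = Q(w) p - 2 B(p,w) w` is isotropic, and `y = yy H a b u` is the point
where the plane `<a, b, u>` meets the three quadrics outside the line. `t` and `s` can be recovered
from the ratios of the coordinates of `y`.
-/

set_option autoImplicit false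

namespace Pool.Agent.Helper11.QQ

open Polynomial Pool.Agent.Helper72.QT

variable {k : Type*} [Field k] {N : ℕ}

/-- the residual point of the plane spanned by `a`, `b`, `u` -/
def yy (H : Fin 3 → Mt k N) (a b : Fin N → k) {R : Type*} [CommRing R] [Algebra k R]
    (u : Fin N → R) : Fin N → R :=
  (bil (H 1) (cst R b) u * bil (H 2) u u - bil (H 2) (cst R b) u * bil (H 1) u u) • cst R a +
    (bil (H 2) (cst R a) u * bil (H 1) u u - bil (H 1) (cst R a) u * bil (H 2) u u) • cst R b +
    (2 * gam H a b u) • u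

section general

variable {R : Type*} [CommRing R] [Algebra k R]

theorem bil_comb {G : Fin 3 → Mt k N} (hG : ∀ c, Sym (G c)) {a b : Fin N → k} (hL : Line G a b)
    (c : Fin 3) (α β γ : R) (u : Fin N → R) :
    bil (G c) (α • cst R a + β • cst R b + γ • u) (α • cst R a + β • cst R b + γ • u) =
      γ * (2 * α * bil (G c) (cst R a) u + 2 * β * bil (G c) (cst R b) u + γ * bil (G c) u u) := by
  simp only [bil_add_left, bil_add_right, bil_smul_left, bil_smul_right, hL.raa, hL.rab, hL.rbb,
    hL.rba hG]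
  rw [bil_comm (hG c) u (cst R a), bil_comm (hG c) u (cst R b)]
  ring

theorem bil_a_comb {G : Fin 3 → Mt k N} (hG : ∀ c, Sym (G c)) {a b : Fin N → k} (hL : Line G a b)
    (c : Fin 3) (α β γ : R) (u : Fin N → R) :
    bil (G c) (cst R a) (α • cst R a + β • cst R b + γ • u) = γ * bil (G c) (cst R a) u ∧
    bil (G c) (cst R b) (α • cst R a + β • cst R b + γ • u) = γ * bil (G c) (cst R b) u := by
  constructor
  · simp only [bil_add_right, bil_smul_right, hL.raa, hL.rab]
    ring
  · simp only [bil_add_right, bil_smul_right, hL.rba hG, hL.rbb]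
    ring

theorem bil_yy {H : Fin 3 → Mt k N} (hH : ∀ c, Sym (H c)) {a b : Fin N → k} (hL : Line H a b)
    (t : R) (u : Fin N → R) (ha : bt H t (cst R a) u = 0) (hb : bt H t (cst R b) u = 0)
    (hu : bt H t u u = 0) (c : Fin 3) : bil (H c) (yy H a b u) (yy H a b u) = 0 := by
  have h1 : bil (H 1) (yy H a b u) (yy H a b u) = 0 := by
    rw [yy, bil_comb hH hL, gam]
    ring
  have h2 : bil (H 2) (yy H a b u) (yy H a b u) = 0 := by
    rw [yy, bil_comb hH hL, gam]
    ring
  have h0 : bil (H 0) (yy H a b u) (yy H a b u) = 0 := by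
    have e : bil (H 0) (yy H a b u) (yy H a b u) + t * bil (H 1) (yy H a b u) (yy H a b u) = 0 := by
      rw [yy, bil_comb hH hL, bil_comb hH hL]
      unfold bt at ha hb hu
      linear_combination (2 * gam H a b u) * (2 * (bil (H 1) (cst R b) u * bil (H 2) u u -
        bil (H 2) (cst R b) u * bil (H 1) u u) * ha + 2 * (bil (H 2) (cst R a) u * bil (H 1) u u -
        bil (H 1) (cst R a) u * bil (H 2) u u) * hb + 2 * gam H a b u * hu)
    rw [h1] at e
    rw [← e]
    ring
  fin_cases c
  · exact h0
  · exact h1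
  · exact h2

end general

/-- dual functionals over a field -/
theorem exists_dual' {E : Type*} [Field E] {r : ℕ} (u : Fin r → Fin N → E)
    (hu : LinearIndependent E u) :
    ∃ d : Fin r → Fin N → E, ∀ p q : Fin r, ∑ j, d p j * u q j = if p = q then 1 else 0 := by
  classical
  have hinj : LinearMap.ker (Fintype.linearCombination E u) = ⊥ :=
    LinearMap.ker_eq_bot.2 (linearIndependent_iff_injective_fintypeLinearCombination.1 hu)
  obtain ⟨g, hg⟩ := LinearMap.exists_leftInverse_of_injective _ hinj
  refine ⟨fun p j => g (Pi.single j 1) p, fun p q => ?_⟩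
  have e1 : g (u q) = Pi.single q 1 := by
    have e2 := LinearMap.congr_fun hg (Pi.single q 1)
    rw [LinearMap.comp_apply, LinearMap.id_apply, Fintype.linearCombination_apply_single,
      one_smul] at e2
    exact e2
  have e3 : u q = ∑ j, u q j • (Pi.single j (1 : E) : Fin N → E) := by
    funext i
    rw [Finset.sum_apply]
    simp [Pi.single_apply]
  have e4 : g (u q) p = ∑ j, u q j * g (Pi.single j 1) p := by
    conv_lhs => rw [e3]
    rw [map_sum, Finset.sum_apply]
    refine Finset.sum_congr rfl fun j _ => ?_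
    rw [map_smul, Pi.smul_apply, smul_eq_mul]
  rw [e1, Pi.single_apply] at e4
  rw [e4]
  exact Finset.sum_congr rfl fun j _ => mul_comm _ _

/-- a linear form with coefficients in `k(t)` on vectors over `k(t)(s)` -/
noncomputable def dotK (d : Fin N → RatFunc k) (v : Fin N → KK k) : KK k :=
  ∑ j, algebraMap (RatFunc k) (KK k) (d j) * v j

theorem dotK_add (d : Fin N → RatFunc k) (v w : Fin N → KK k) :
    dotK d (v + w) = dotK d v + dotK d w := by
  simp only [dotK, Pi.add_apply, mul_add, Finset.sum_add_distrib]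

theorem dotK_smul (d : Fin N → RatFunc k) (c : KK k) (v : Fin N → KK k) :
    dotK d (c • v) = c * dotK d v := by
  simp only [dotK, Pi.smul_apply, smul_eq_mul, Finset.mul_sum]
  refine Finset.sum_congr rfl fun j _ => ?_
  ring

theorem dotK_map (d v : Fin N → RatFunc k) :
    dotK d (fun j => algebraMap (RatFunc k) (KK k) (v j)) =
      algebraMap (RatFunc k) (KK k) (∑ j, d j * v j) := by
  simp only [dotK, map_sum, map_mul]

/-- a field which contains `k` and `t` contains `k(t)` -/
theorem mem_of_tt (L : IntermediateField k (KK k)) (ht : tt k ∈ L) (a : RatFunc k) :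
    algebraMap (RatFunc k) (KK k) a ∈ L := by
  have h1 : ∀ p : k[X], algebraMap (RatFunc k) (KK k) (algebraMap k[X] (RatFunc k) p) ∈ L := by
    intro p
    induction p using Polynomial.induction_on' with
    | add p q hp hq =>
      rw [map_add, map_add]
      exact add_mem hp hq
    | monomial n a =>
      rw [← C_mul_X_pow_eq_monomial, map_mul, map_mul, map_pow, map_pow]
      refine mul_mem ?_ (pow_mem ?_ n)
      · have e1 : algebraMap (RatFunc k) (KK k) (algebraMap k[X] (RatFunc k) (C a)) =
            algebraMap k (KK k) a := by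
          rw [IsScalarTower.algebraMap_apply k (RatFunc k) (KK k)]
          rfl
        rw [e1]
        exact L.algebraMap_mem a
      · have e1 : algebraMap (RatFunc k) (KK k) (algebraMap k[X] (RatFunc k) X) = tt k := by
          rw [RatFunc.algebraMap_X]
          rfl
        rw [e1]
        exact ht
  rw [← RatFunc.num_div_denom a, map_div₀]
  exact div_mem (h1 _) (h1 _)

theorem dotK_mem (L : IntermediateField k (KK k)) (ht : tt k ∈ L) (y : Fin N → KK k) (i : Fin N)
    (hy : ∀ j, y j / y i ∈ L) (d : Fin N → RatFunc k) : dotK d y / y i ∈ L := by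
  unfold dotK
  rw [Finset.sum_div]
  refine sum_mem fun j _ => ?_
  rw [mul_div_assoc]
  exact mul_mem (mem_of_tt L ht _) (hy j)

/-- polynomials in `s` over `k(t)` as elements of `k(t)(s)` -/
noncomputable def jP (k : Type*) [Field k] : (RatFunc k)[X] →ₐ[k] KK k :=
  IsScalarTower.toAlgHom k (RatFunc k)[X] (KK k)

theorem jP_C (a : RatFunc k) : jP k (C a) = algebraMap (RatFunc k) (KK k) a := by
  show algebraMap (RatFunc k)[X] (KK k) (C a) = _
  rw [RatFunc.algebraMap_C]
  rfl

theorem jP_X : jP k X = ss k := by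
  show algebraMap (RatFunc k)[X] (KK k) X = _
  rw [RatFunc.algebraMap_X]
  rfl

theorem jP_injective : Function.Injective (jP k) := RatFunc.algebraMap_injective (RatFunc k)

/-- evaluation at `s = 0` -/
noncomputable def e0 (k : Type*) [Field k] : (RatFunc k)[X] →ₐ[k] RatFunc k :=
  (Polynomial.aeval (0 : RatFunc k)).restrictScalars k

theorem e0_C (a : RatFunc k) : e0 k (C a) = a := by
  show Polynomial.aeval (0 : RatFunc k) (C a) = a
  rw [aeval_C]
  rfl

theorem e0_X : e0 k X = 0 := by
  show Polynomial.aeval (0 : RatFunc k) X = 0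
  rw [aeval_X]

/-- constants of `k(t)` in `k(t)[s]` -/
noncomputable def cP (k : Type*) [Field k] : RatFunc k →ₐ[k] (RatFunc k)[X] :=
  IsScalarTower.toAlgHom k (RatFunc k) (RatFunc k)[X]

theorem cP_apply (a : RatFunc k) : cP k a = C a := rfl

theorem gam_smul {R : Type*} [CommRing R] [Algebra k R] (H : Fin 3 → Mt k N) (a b : Fin N → k)
    (c : R) (u : Fin N → R) : gam H a b (c • u) = c ^ 2 * gam H a b u := by
  simp only [gam, bil_smul_right]
  ring

theorem surf (h2 : (2 : k) ≠ 0) {H : Fin 3 → Mt k N} (hH : ∀ c, Sym (H c)) {a b : Fin N → k}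
    (hL : Line H a b) (hab : LinearIndependent k ![a, b]) (p w0 w1 : Fin N → RatFunc k)
    (hap : bt H RatFunc.X (cst (RatFunc k) a) p = 0)
    (hbp : bt H RatFunc.X (cst (RatFunc k) b) p = 0) (hpp : bt H RatFunc.X p p = 0)
    (haw0 : bt H RatFunc.X (cst (RatFunc k) a) w0 = 0)
    (hbw0 : bt H RatFunc.X (cst (RatFunc k) b) w0 = 0) (hpw0 : bt H RatFunc.X p w0 = 0)
    (hw0 : bt H RatFunc.X w0 w0 ≠ 0)
    (haw1 : bt H RatFunc.X (cst (RatFunc k) a) w1 = 0)
    (hbw1 : bt H RatFunc.X (cst (RatFunc k) b) w1 = 0) (hpw1 : bt H RatFunc.X p w1 ≠ 0)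
    (hg : gam H a b p ≠ 0) : ContRat3 H := by
  classical
  have h2R : (2 : (RatFunc k)[X]) ≠ 0 := by
    have h : algebraMap k (RatFunc k)[X] 2 ≠ 0 := by
      rw [Ne, map_eq_zero_iff _ (algebraMap k (RatFunc k)[X]).injective]
      exact h2
    rwa [map_ofNat] at h
  have h2K : (2 : KK k) ≠ 0 := by
    have h : jP k 2 ≠ 0 := by
      rw [Ne, map_eq_zero_iff _ jP_injective]
      exact h2R
    rwa [map_ofNat] at h
  -- vectors over `k(t)[s]`
  obtain ⟨P, hP⟩ : ∃ P : Fin N → (RatFunc k)[X], P = fun i => cP k (p i) := ⟨_, rfl⟩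
  obtain ⟨W0, hW0⟩ : ∃ W0 : Fin N → (RatFunc k)[X], W0 = fun i => cP k (w0 i) := ⟨_, rfl⟩
  obtain ⟨W1, hW1⟩ : ∃ W1 : Fin N → (RatFunc k)[X], W1 = fun i => cP k (w1 i) := ⟨_, rfl⟩
  obtain ⟨T, hT⟩ : ∃ T : (RatFunc k)[X], T = cP k RatFunc.X := ⟨_, rfl⟩
  have cc : ∀ v w : Fin N → RatFunc k, bt H T (fun i => cP k (v i)) (fun i => cP k (w i)) =
      cP k (bt H RatFunc.X v w) := fun v w => by rw [hT, bt_map]
  have ca : ∀ (a : Fin N → k) (w : Fin N → RatFunc k),
      bt H T (cst (RatFunc k)[X] a) (fun i => cP k (w i)) =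
        cP k (bt H RatFunc.X (cst (RatFunc k) a) w) := by
    intro a w
    rw [← cc, cst_map]
  obtain ⟨W, hW⟩ : ∃ W : Fin N → (RatFunc k)[X], W = W0 + (X : (RatFunc k)[X]) • W1 := ⟨_, rfl⟩
  obtain ⟨q, hq⟩ : ∃ q : (RatFunc k)[X], q = bt H T W W := ⟨_, rfl⟩
  obtain ⟨g, hgg⟩ : ∃ g : (RatFunc k)[X], g = bt H T P W := ⟨_, rfl⟩
  have hgX : g = X * C (bt H RatFunc.X p w1) := by
    rw [hgg, hW, bt_add_right, bt_smul_right, hP, hW0, hW1, cc, cc, hpw0, map_zero, zero_add]
    rfl
  obtain ⟨U, hU⟩ : ∃ U : Fin N → (RatFunc k)[X], U = q • P - (2 * g) • W := ⟨_, rfl⟩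
  have haP : bt H T (cst _ a) P = 0 := by rw [hP, ca, hap, map_zero]
  have hbP : bt H T (cst _ b) P = 0 := by rw [hP, ca, hbp, map_zero]
  have haW : bt H T (cst _ a) W = 0 := by
    rw [hW, bt_add_right, bt_smul_right, hW0, hW1, ca, ca, haw0, haw1, map_zero]
    ring
  have hbW : bt H T (cst _ b) W = 0 := by
    rw [hW, bt_add_right, bt_smul_right, hW0, hW1, ca, ca, hbw0, hbw1, map_zero]
    ring
  have hPP : bt H T P P = 0 := by rw [hP, cc, hpp, map_zero]
  have haU : bt H T (cst _ a) U = 0 := by
    rw [hU, bt_sub_right, bt_smul_right, bt_smul_right, haP, haW]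
    ring
  have hbU : bt H T (cst _ b) U = 0 := by
    rw [hU, bt_sub_right, bt_smul_right, bt_smul_right, hbP, hbW]
    ring
  have hUU : bt H T U U = 0 := by
    rw [hU, bt_sub_right, bt_sub_left, bt_sub_left, bt_smul_right, bt_smul_right, bt_smul_right,
      bt_smul_right, bt_smul_left, bt_smul_left, bt_smul_left, bt_smul_left, hPP,
      bt_comm hH T W P, ← hgg, ← hq]
    ring
  have hγ : gam H a b U ≠ 0 := by
    intro h
    have h1 := congrArg (e0 k) h
    rw [← gam_map, map_zero] at h1
    have h3 : (fun i => e0 k (U i)) = (bt H RatFunc.X w0 w0) • p := by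
      funext i
      have h4 : e0 k q = bt H RatFunc.X w0 w0 := by
        rw [hq, ← bt_map, hT, cP_apply, e0_C]
        have h5 : (fun i => e0 k (W i)) = w0 := by
          funext i
          rw [hW, hW0, hW1]
          simp only [Pi.add_apply, Pi.smul_apply, smul_eq_mul, map_add, map_mul, e0_X, zero_mul,
            add_zero, cP_apply, e0_C]
        rw [h5]
      rw [hU]
      simp only [Pi.sub_apply, Pi.smul_apply, smul_eq_mul, map_sub, map_mul]
      rw [h4, hgX, map_mul, e0_X, zero_mul, mul_zero, zero_mul, sub_zero, hP]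
      simp only [cP_apply, e0_C]
    rw [h3, gam_smul] at h1
    rcases mul_eq_zero.1 h1 with h4 | h4
    · exact hw0 (pow_eq_zero_iff (two_ne_zero) |>.1 h4)
    · exact hg h4
  -- vectors over `k(t)(s)`
  obtain ⟨u, hu⟩ : ∃ u : Fin N → KK k, u = fun i => jP k (U i) := ⟨_, rfl⟩
  have hTt : jP k T = tt k := by
    rw [hT, cP_apply, jP_C]
    rfl
  have hau : bt H (tt k) (cst (KK k) a) u = 0 := by
    rw [← hTt, hu, ← cst_map (jP k), bt_map, haU, map_zero]
  have hbu : bt H (tt k) (cst (KK k) b) u = 0 := by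
    rw [← hTt, hu, ← cst_map (jP k), bt_map, hbU, map_zero]
  have huu : bt H (tt k) u u = 0 := by
    rw [← hTt, hu, bt_map, hUU, map_zero]
  have hγu : gam H a b u ≠ 0 := by
    rw [hu, gam_map, Ne, map_eq_zero_iff _ jP_injective]
    exact hγ
  obtain ⟨y, hy⟩ : ∃ y : Fin N → KK k, y = yy H a b u := ⟨_, rfl⟩
  obtain ⟨γ, hγe⟩ : ∃ γ : KK k, γ = 2 * gam H a b u := ⟨_, rfl⟩
  have hγ0 : γ ≠ 0 := by
    rw [hγe]
    exact mul_ne_zero h2K hγu
  obtain ⟨α, β, hyy⟩ : ∃ α β : KK k, y = α • cst (KK k) a + β • cst (KK k) b + γ • u :=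
    ⟨_, _, by rw [hy, yy, hγe]⟩
  have hya : ∀ c, bil (H c) (cst (KK k) a) y = γ * bil (H c) (cst (KK k) a) u := fun c => by
    rw [hyy]
    exact (bil_a_comb hH hL c α β γ u).1
  have hyb : ∀ c, bil (H c) (cst (KK k) b) y = γ * bil (H c) (cst (KK k) b) u := fun c => by
    rw [hyy]
    exact (bil_a_comb hH hL c α β γ u).2
  have hne : bil (H 1) (cst (KK k) a) u ≠ 0 ∨ bil (H 1) (cst (KK k) b) u ≠ 0 := by
    by_contra hcon
    push Not at hcon
    apply hγu
    rw [gam, hcon.1, hcon.2]
    ring
  have hy0 : ∃ i, y i ≠ 0 := by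
    by_contra hcon
    push Not at hcon
    have h0 : y = 0 := funext hcon
    rcases hne with h | h
    · have := hya 1
      rw [h0, bil_zero_right] at this
      exact mul_ne_zero hγ0 h this.symm
    · have := hyb 1
      rw [h0, bil_zero_right] at this
      exact mul_ne_zero hγ0 h this.symm
  obtain ⟨i, hi⟩ := hy0
  refine ⟨y, fun c => ?_, i, hi, ?_⟩
  · rw [hy]
    exact bil_yy hH hL (tt k) u hau hbu huu c
  obtain ⟨L, hLd⟩ : ∃ L, L = IntermediateField.adjoin k (Set.range fun j => y j / y i) := ⟨_, rfl⟩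
  rw [← hLd]
  have htt : tt k ∈ L := by
    rcases hne with h | h
    · have h3 := ratio_mem y i hi (fun j => bil (H 0) a (Pi.single j 1))
        (fun j => bil (H 1) a (Pi.single j 1))
      rw [← bil_eq_sum, ← bil_eq_sum, hya, hya, mul_div_mul_left _ _ hγ0, ← hLd] at h3
      have h4 : bil (H 0) (cst (KK k) a) u / bil (H 1) (cst (KK k) a) u = -tt k := by
        rw [div_eq_iff h]
        unfold bt at hau
        linear_combination hau
      rw [h4] at h3
      have h5 := neg_mem h3
      rwa [neg_neg] at h5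
    · have h3 := ratio_mem y i hi (fun j => bil (H 0) b (Pi.single j 1))
        (fun j => bil (H 1) b (Pi.single j 1))
      rw [← bil_eq_sum, ← bil_eq_sum, hyb, hyb, mul_div_mul_left _ _ hγ0, ← hLd] at h3
      have h4 : bil (H 0) (cst (KK k) b) u / bil (H 1) (cst (KK k) b) u = -tt k := by
        rw [div_eq_iff h]
        unfold bt at hbu
        linear_combination hbu
      rw [h4] at h3
      have h5 := neg_mem h3
      rwa [neg_neg] at h5
  refine gen_top L ?_ htt
  -- independence of `a, b, p, w0, w1` over `k(t)`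
  have hind : LinearIndependent (RatFunc k)
      ![cst (RatFunc k) a, cst (RatFunc k) b, p, w0, w1] := by
    rw [Fintype.linearIndependent_iff]
    intro c hc
    rw [Fin.sum_univ_five] at hc
    simp only [Matrix.cons_val_zero, Matrix.cons_val_one, Matrix.cons_val_two,
      Matrix.cons_val_three, Matrix.cons_val_four, Matrix.head_cons, Matrix.tail_cons,
      Matrix.cons_val] at hc
    have hB : ∀ v : Fin N → RatFunc k, bt H RatFunc.X v (c 0 • cst (RatFunc k) a +
        c 1 • cst (RatFunc k) b + c 2 • p + c 3 • w0 + c 4 • w1) = 0 := by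
      intro v
      rw [hc]
      simp only [bt, bil_zero_right]
      ring
    have haa : ∀ x z : Fin N → k, (∀ e, bil (H e) x z = 0) →
        bt H RatFunc.X (cst (RatFunc k) x) (cst (RatFunc k) z) = 0 := by
      intro x z h
      simp only [bt, bil_cst, h, map_zero]
      ring
    have c4 : c 4 = 0 := by
      have h := hB p
      simp only [bt_add_right, bt_smul_right] at h
      rw [bt_comm hH _ p (cst _ a), bt_comm hH _ p (cst _ b), hap, hbp, hpp, hpw0] at h
      have h' : c 4 * bt H RatFunc.X p w1 = 0 := by linear_combination h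
      exact (mul_eq_zero.1 h').resolve_right hpw1
    have c3 : c 3 = 0 := by
      have h := hB w0
      simp only [bt_add_right, bt_smul_right] at h
      rw [bt_comm hH _ w0 (cst _ a), bt_comm hH _ w0 (cst _ b), haw0, hbw0, c4,
        bt_comm hH _ w0 p, hpw0] at h
      have h' : c 3 * bt H RatFunc.X w0 w0 = 0 := by linear_combination h
      exact (mul_eq_zero.1 h').resolve_right hw0
    rw [c3, c4, zero_smul, zero_smul, add_zero, add_zero] at hc
    have c2 : c 2 = 0 := by
      by_contra h0
      have h1 : c 2 • p = (-(c 0)) • cst (RatFunc k) a + (-(c 1)) • cst (RatFunc k) b := by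
        rw [neg_smul, neg_smul]
        have := eq_neg_of_add_eq_zero_right hc
        rw [this]
        abel
      have h3 : gam H a b (c 2 • p) = 0 := by
        rw [h1]
        simp only [gam, bil_add_right, bil_smul_right, hL.raa, hL.rab, hL.rbb, hL.rba hH]
        ring
      rw [gam_smul] at h3
      rcases mul_eq_zero.1 h3 with h4 | h4
      · exact h0 (pow_eq_zero_iff (two_ne_zero) |>.1 h4)
      · exact hg h4
    rw [c2, zero_smul, add_zero] at hc
    have hab' : LinearIndependent (RatFunc k) ![cst (RatFunc k) a, cst (RatFunc k) b] := by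
      obtain ⟨d, hd⟩ := exists_dual' ![a, b] hab
      rw [LinearIndependent.pair_iff]
      intro x z hxz
      have key : ∀ r : Fin 2, x * algebraMap k (RatFunc k) (∑ j, d r j * a j) +
          z * algebraMap k (RatFunc k) (∑ j, d r j * b j) = 0 := by
        intro r
        rw [map_sum, map_sum, Finset.mul_sum, Finset.mul_sum, ← Finset.sum_add_distrib]
        refine Finset.sum_eq_zero fun j _ => ?_
        have h := congrFun hxz j
        simp only [Pi.add_apply, Pi.smul_apply, smul_eq_mul, Pi.zero_apply, cst] at h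
        rw [map_mul, map_mul]
        linear_combination (algebraMap k (RatFunc k) (d r j)) * h
      have k0 := key 0
      have k1 := key 1
      have d00 : ∑ j, d 0 j * a j = 1 := hd 0 0
      have d01 : ∑ j, d 0 j * b j = 0 := hd 0 1
      have d10 : ∑ j, d 1 j * a j = 0 := hd 1 0
      have d11 : ∑ j, d 1 j * b j = 1 := hd 1 1
      rw [d00, d01, map_one, map_zero] at k0
      rw [d10, d11, map_one, map_zero] at k1
      exact ⟨by linear_combination k0, by linear_combination k1⟩
    rw [LinearIndependent.pair_iff] at hab'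
    obtain ⟨c0, c1⟩ := hab' _ _ hc
    intro i
    fin_cases i
    · exact c0
    · exact c1
    · exact c2
    · exact c3
    · exact c4
  obtain ⟨d, hd⟩ := exists_dual' _ hind
  -- `u` in terms of the vectors
  have huK : u = (jP k q) • (fun j => algebraMap (RatFunc k) (KK k) (p j)) -
      (2 * jP k g) • ((fun j => algebraMap (RatFunc k) (KK k) (w0 j)) +
        ss k • (fun j => algebraMap (RatFunc k) (KK k) (w1 j))) := by
    funext j
    rw [hu, hU, hW, hW0, hW1, hP]
    simp only [Pi.sub_apply, Pi.add_apply, Pi.smul_apply, smul_eq_mul, map_sub, map_mul, map_add,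
      map_ofNat, cP_apply, jP_C, jP_X]
  have hcstK : ∀ x : Fin N → k, cst (KK k) x =
      fun j => algebraMap (RatFunc k) (KK k) (cst (RatFunc k) x j) := by
    intro x
    funext j
    exact IsScalarTower.algebraMap_apply k (RatFunc k) (KK k) (x j)
  have hdot : ∀ r : Fin 5, dotK (d r) y =
      α * algebraMap (RatFunc k) (KK k) (if r = 0 then 1 else 0) +
      β * algebraMap (RatFunc k) (KK k) (if r = 1 then 1 else 0) +
      γ * (jP k q * algebraMap (RatFunc k) (KK k) (if r = 2 then 1 else 0) -
        2 * jP k g * (algebraMap (RatFunc k) (KK k) (if r = 3 then 1 else 0) +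
          ss k * algebraMap (RatFunc k) (KK k) (if r = 4 then 1 else 0))) := by
    intro r
    have e0 : ∑ j, d r j * cst (RatFunc k) a j = if r = 0 then 1 else 0 := hd r 0
    have e1 : ∑ j, d r j * cst (RatFunc k) b j = if r = 1 then 1 else 0 := hd r 1
    have e2 : ∑ j, d r j * p j = if r = 2 then 1 else 0 := hd r 2
    have e3 : ∑ j, d r j * w0 j = if r = 3 then 1 else 0 := hd r 3
    have e4 : ∑ j, d r j * w1 j = if r = 4 then 1 else 0 := hd r 4
    rw [hyy, huK, sub_eq_add_neg, ← neg_smul, hcstK, hcstK]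
    simp only [dotK_add, dotK_smul, dotK_map, e0, e1, e2, e3, e4]
    ring
  have hgK : jP k g ≠ 0 := by
    rw [Ne, map_eq_zero_iff _ jP_injective, hgX]
    exact mul_ne_zero X_ne_zero (by rw [Ne, C_eq_zero]; exact hpw1)
  have h3 : dotK (d 3) y = -(2 * γ * jP k g) := by
    rw [hdot]
    simp
    ring
  have h4 : dotK (d 4) y = -(2 * γ * jP k g) * ss k := by
    rw [hdot]
    simp
    ring
  have hyL : ∀ j, y j / y i ∈ L := by
    intro j
    rw [hLd]
    exact IntermediateField.subset_adjoin _ _ ⟨j, rfl⟩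
  have m3 := dotK_mem L htt y i hyL (d 3)
  have m4 := dotK_mem L htt y i hyL (d 4)
  rw [h3] at m3
  rw [h4] at m4
  have hne3 : -(2 * γ * jP k g) ≠ 0 := neg_ne_zero.2 (mul_ne_zero (mul_ne_zero h2K hγ0) hgK)
  have h5 := div_mem m4 m3
  have h6 : -(2 * γ * jP k g) * ss k / y i / (-(2 * γ * jP k g) / y i) = ss k := by
    field_simp
  rwa [h6] at h5

end Pool.Agent.Helper11.QQ
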